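import Mathlib

set_option autoImplicit false

noncomputable section

namespace Pool.Agent.H89.RFP

open scoped ENNReal

variable {Y : Type*} {K : Type*} [NormedAddCommGroup K] [InnerProductSpace ℂ K]

lemma memlp_comp (T : K →L[ℂ] K) (f : lp (fun _ : Y => K) 2) :
    Memℓp (fun y => T (f y)) 2 := by
  have h1 : Summable fun y => ‖f y‖ ^ (2 : ℝ≥0∞).toReal := (lp.memℓp f).summable (by norm_num)
  apply memℓp_gen
  have h2 : Summable fun y => ‖T‖ ^ (2 : ℝ≥0∞).toReal * ‖f y‖ ^ (2 : ℝ≥0∞).toReal :=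
    h1.mul_left _
  refine Summable.of_nonneg_of_le (fun y => by positivity) (fun y => ?_) h2
  rw [← Real.mul_rpow (norm_nonneg _) (norm_nonneg _)]
  exact Real.rpow_le_rpow (norm_nonneg _) (T.le_opNorm _) (by norm_num)

/-- amplification as a linear map -/
def ampLin (T : K →L[ℂ] K) : lp (fun _ : Y => K) 2 →ₗ[ℂ] lp (fun _ : Y => K) 2 where
  toFun f := ⟨fun y => T (f y), memlp_comp T f⟩
  map_add' f g := by
    ext y; simp
  map_smul' c f := by
    ext y; simp

omit [InnerProductSpace ℂ K] in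
lemma norm_sq_lp (f : lp (fun _ : Y => K) 2) : HasSum (fun y => ‖f y‖ ^ 2) (‖f‖ ^ 2) := by
  have := lp.hasSum_norm (p := 2) (by norm_num) f
  simpa using this

lemma ampLin_bound (T : K →L[ℂ] K) (f : lp (fun _ : Y => K) 2) :
    ‖ampLin T f‖ ≤ ‖T‖ * ‖f‖ := by
  have h1 := norm_sq_lp (ampLin T f)
  have h2 := (norm_sq_lp f).mul_left (‖T‖ ^ 2)
  have h3 : ‖ampLin T f‖ ^ 2 ≤ ‖T‖ ^ 2 * ‖f‖ ^ 2 := by
    refine hasSum_le (fun y => ?_) h1 h2
    rw [← mul_pow]
    have : ‖T (f y)‖ ≤ ‖T‖ * ‖f y‖ := T.le_opNorm _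
    have h4 : (ampLin T f : ∀ _ : Y, K) y = T (f y) := rfl
    rw [h4]
    gcongr
  rw [← mul_pow] at h3
  exact le_of_sq_le_sq h3 (by positivity)
where
  le_of_sq_le_sq {a b : ℝ} (h : a ^ 2 ≤ b ^ 2) (hb : 0 ≤ b) : a ≤ b := by
    nlinarith [sq_nonneg (a - b), sq_nonneg (a + b)]

/-- amplification as a bounded operator -/
def ampCLM (T : K →L[ℂ] K) : lp (fun _ : Y => K) 2 →L[ℂ] lp (fun _ : Y => K) 2 :=
  (ampLin T).mkContinuous ‖T‖ (ampLin_bound T)

@[simp] lemma ampCLM_apply (T : K →L[ℂ] K) (f : lp (fun _ : Y => K) 2) (y : Y) :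
    (ampCLM T f : ∀ _ : Y, K) y = T (f y) := rfl

variable [CompleteSpace K]

/-- amplification as a *-homomorphism -/
def amp (Y : Type*) : (K →L[ℂ] K) →⋆ₐ[ℂ] (lp (fun _ : Y => K) 2 →L[ℂ] lp (fun _ : Y => K) 2) where
  toFun := ampCLM
  map_one' := by ext f y; simp
  map_mul' S T := by ext f y; simp
  map_zero' := by ext f y; simp
  map_add' S T := by ext f y; simp
  commutes' r := by
    ext f y
    simp [Algebra.algebraMap_eq_smul_one]
  map_star' T := by
    rw [ContinuousLinearMap.star_eq_adjoint, ContinuousLinearMap.star_eq_adjoint]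
    rw [ContinuousLinearMap.eq_adjoint_iff]
    intro f g
    rw [lp.inner_eq_tsum, lp.inner_eq_tsum]
    congr 1
    funext y
    rw [ampCLM_apply, ampCLM_apply, ContinuousLinearMap.adjoint_inner_left]

@[simp] lemma amp_apply (T : K →L[ℂ] K) (f : lp (fun _ : Y => K) 2) (y : Y) :
    (amp (K := K) Y T f : ∀ _ : Y, K) y = T (f y) := rfl

lemma amp_single [DecidableEq Y] (T : K →L[ℂ] K) (y : Y) (v : K) :
    amp (K := K) Y T (lp.single (E := fun _ : Y => K) 2 y v)
      = lp.single (E := fun _ : Y => K) 2 y (T v) := by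
  ext z
  rw [amp_apply, lp.single_apply, lp.single_apply]
  by_cases h : z = y
  · subst h; simp
  · simp [h]

end Pool.Agent.H89.RFP
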