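import Mathlib

set_option autoImplicit false

namespace Pool.Agent.H89.RFP

/-- `φ` is a state of the unital C*-algebra `A`: `φ 1 = 1` and `φ (a* a) ≥ 0` for all `a`. -/
def IsState {A : Type*} [CStarAlgebra A] (φ : A →L[ℂ] ℂ) : Prop :=
  φ 1 = 1 ∧ ∀ a : A, 0 ≤ (φ (star a * a)).re ∧ (φ (star a * a)).im = 0

/-- The unital C*-algebra `B` with state `ψ` is the reduced free product of the family of unital
*-subalgebras `D i` of `B` with the states `ψ|D i`. -/
structure IsReducedFreeProduct {I : Type*} {B : Type*} [CStarAlgebra B] (ψ : B →L[ℂ] ℂ)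
    (D : I → StarSubalgebra ℂ B) : Prop where
  /-- `ψ` is a state -/
  state : IsState ψ
  /-- freeness: `ψ` vanishes on products of centred elements of which neighbours come from
  different `D i` -/
  free : ∀ l : List (I × B), l ≠ [] → l.IsChain (fun p q => p.1 ≠ q.1) →
    (∀ p ∈ l, p.2 ∈ D p.1 ∧ ψ p.2 = 0) → ψ (l.map Prod.snd).prod = 0
  /-- `B` is generated by the `D i` as a C*-algebra -/
  generates : closure ((StarAlgebra.adjoin ℂ (⋃ i, (D i : Set B)) : StarSubalgebra ℂ B) : Set B)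
    = Set.univ
  /-- the GNS representation of `ψ` is faithful on `B` -/
  faithful : ∀ b : B, (∀ c : B, ψ (star (b * c) * (b * c)) = 0) → b = 0

/-- `(B, ψ)` is the infinite reduced free power of `(C, σ)`. -/
def IsInfiniteFreePower {C B : Type*} [CStarAlgebra C] [CStarAlgebra B] (σ : C →L[ℂ] ℂ)
    (ψ : B →L[ℂ] ℂ) : Prop :=
  ∃ j : ℕ → (C →⋆ₐ[ℂ] B), (∀ n c, ψ (j n c) = σ c) ∧
    IsReducedFreeProduct ψ (fun n => (j n).range)

/-- `(A, φ)` is the reduced free product of `(A₁, φ₁)` and `(A₂, φ₂)`. -/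
def IsFreeProductOfTwo {A₁ A₂ A : Type*} [CStarAlgebra A₁] [CStarAlgebra A₂] [CStarAlgebra A]
    (φ₁ : A₁ →L[ℂ] ℂ) (φ₂ : A₂ →L[ℂ] ℂ) (φ : A →L[ℂ] ℂ) : Prop :=
  ∃ (k₁ : A₁ →⋆ₐ[ℂ] A) (k₂ : A₂ →⋆ₐ[ℂ] A), (∀ a, φ (k₁ a) = φ₁ a) ∧ (∀ a, φ (k₂ a) = φ₂ a) ∧
    IsReducedFreeProduct φ (fun b : Bool => if b then k₁.range else k₂.range)

/-- `O` is the Cuntz algebra on infinitely many generators: a nonzero unital C*-algebra generated
by a sequence of isometries with mutually orthogonal ranges. -/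
def IsCuntzInfinity (O : Type*) [CStarAlgebra O] : Prop :=
  Nontrivial O ∧ ∃ s : ℕ → O, (∀ n, star (s n) * s n = 1) ∧ (∀ m n, m ≠ n → star (s m) * s n = 0) ∧
    closure ((StarAlgebra.adjoin ℂ (Set.range s) : StarSubalgebra ℂ O) : Set O) = Set.univ

/-- A unital C*-algebra is purely infinite and simple: it is not `ℂ`, and for every `a ≠ 0` there
are `x` and `y` with `x a y = 1`. -/
def IsPurelyInfiniteSimple (A : Type*) [CStarAlgebra A] : Prop :=
  (∃ a : A, ∀ z : ℂ, a ≠ algebraMap ℂ A z) ∧ ∀ a : A, a ≠ 0 → ∃ x y : A, x * a * y = 1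

end Pool.Agent.H89.RFP
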