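import Pool.Agent.H89.RFP.Free

set_option autoImplicit false

noncomputable section

namespace Pool.Agent.H89.RFP

open scoped ENNReal InnerProductSpace

section general

variable {E : Type*} [NormedAddCommGroup E] [InnerProductSpace ℂ E] [CompleteSpace E]

/-- the vector functional on an algebra of operators -/
def vecFun (S : StarSubalgebra ℂ (E →L[ℂ] E)) (v : E) : S →L[ℂ] ℂ :=
  ((innerSL ℂ v).comp (ContinuousLinearMap.apply ℂ E v)).comp S.toSubalgebra.toSubmodule.subtypeL

@[simp] lemma vecFun_apply (S : StarSubalgebra ℂ (E →L[ℂ] E)) (v : E) (a : S) :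
    vecFun S v a = ⟪v, (a : E →L[ℂ] E) v⟫_ℂ := rfl

instance closed_closure (S : StarSubalgebra ℂ (E →L[ℂ] E)) :
    IsClosed (S.topologicalClosure : Set (E →L[ℂ] E)) :=
  S.isClosed_topologicalClosure

lemma vecFun_star_mul (S : StarSubalgebra ℂ (E →L[ℂ] E)) (v : E) (a : S) :
    vecFun S v (star a * a) = ((‖(a : E →L[ℂ] E) v‖ ^ 2 : ℝ) : ℂ) := by
  rw [vecFun_apply]
  have h1 : ((star a * a : S) : E →L[ℂ] E) = star (a : E →L[ℂ] E) * (a : E →L[ℂ] E) := rfl
  rw [h1, ContinuousLinearMap.star_eq_adjoint, mul_apply_eq_comp,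
    ContinuousLinearMap.adjoint_inner_right, inner_self_eq_norm_sq_to_K]
  simp

/-- in the closure of the algebra generated by a set `s`, the algebra generated by `s` is dense -/
lemma dense_adjoin_closure (s : Set (E →L[ℂ] E)) :
    closure ((StarAlgebra.adjoin ℂ
      ((↑) ⁻¹' s : Set ((StarAlgebra.adjoin ℂ s).topologicalClosure)) :
        StarSubalgebra ℂ ((StarAlgebra.adjoin ℂ s).topologicalClosure)) :
        Set ((StarAlgebra.adjoin ℂ s).topologicalClosure)) = Set.univ := by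
  rw [Set.eq_univ_iff_forall]
  intro x
  rw [closure_subtype]
  have hx : (x : E →L[ℂ] E) ∈ closure ((StarAlgebra.adjoin ℂ s : StarSubalgebra ℂ _) :
      Set (E →L[ℂ] E)) := by
    have := x.2
    rwa [← SetLike.mem_coe, StarSubalgebra.topologicalClosure_coe] at this
  apply closure_mono _ hx
  intro y hy
  have hy' : y ∈ StarAlgebra.adjoin ℂ s := hy
  clear hy
  induction hy' using StarAlgebra.adjoin_induction with
  | mem y hy =>
    exact ⟨⟨y, StarSubalgebra.le_topologicalClosure _ (StarAlgebra.subset_adjoin ℂ s hy)⟩,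
      StarAlgebra.subset_adjoin ℂ _ hy, rfl⟩
  | algebraMap r =>
    exact ⟨algebraMap ℂ _ r, StarSubalgebra.algebraMap_mem _ r, rfl⟩
  | add y z _ _ hy hz =>
    obtain ⟨y', hy', rfl⟩ := hy
    obtain ⟨z', hz', rfl⟩ := hz
    exact ⟨y' + z', add_mem hy' hz', rfl⟩
  | mul y z _ _ hy hz =>
    obtain ⟨y', hy', rfl⟩ := hy
    obtain ⟨z', hz', rfl⟩ := hz
    exact ⟨y' * z', mul_mem hy' hz', rfl⟩
  | star y _ hy =>
    obtain ⟨y', hy', rfl⟩ := hy
    exact ⟨star y', star_mem hy', rfl⟩

end general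

/-- existence of the reduced free product, given cyclic representations -/
theorem exists_of_reps {I : Type} {A : I → Type} [∀ i, CStarAlgebra (A i)]
    (φ : ∀ i, A i →L[ℂ] ℂ)
    {H : I → Type} [∀ i, NormedAddCommGroup (H i)] [∀ i, InnerProductSpace ℂ (H i)]
    [∀ i, CompleteSpace (H i)] (π : ∀ i, A i →⋆ₐ[ℂ] (H i →L[ℂ] H i)) (ξ : ∀ i, H i)
    (hξ : ∀ i, ‖ξ i‖ = 1) (hφ : ∀ i a, φ i a = ⟪ξ i, π i a (ξ i)⟫_ℂ)
    (hcyc : ∀ i, Dense (Set.range fun a => π i a (ξ i))) :
    ∃ (B : Type) (_ : CStarAlgebra B) (ψ : B →L[ℂ] ℂ) (j : ∀ i, A i →⋆ₐ[ℂ] B),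
      (∀ i a, ψ (j i a) = φ i a) ∧ IsReducedFreeProduct ψ (fun i => (j i).range) := by
  classical
  -- Hilbert bases containing the vectors `ξ i`
  have hbas : ∀ i, ∃ (X : Type) (b : HilbertBasis X ℂ (H i)) (o : X), b o = ξ i := by
    intro i
    have h1 : Orthonormal ℂ ((↑) : ({ξ i} : Set (H i)) → H i) := by
      constructor
      · rintro ⟨x, hx⟩
        rw [Set.mem_singleton_iff] at hx
        subst hx
        exact hξ i
      · rintro ⟨x, hx⟩ ⟨y, hy⟩ hxy
        rw [Set.mem_singleton_iff] at hx hy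
        subst hx hy
        exact absurd rfl hxy
    obtain ⟨w, b, hw, hb⟩ := h1.exists_hilbertBasis_extension
    exact ⟨w, b, ⟨ξ i, hw rfl⟩, by rw [hb]⟩
  choose X b o hbo using hbas
  let e : HilbertBasis (W o) ℂ (lp (fun _ : W o => ℂ) 2) := ⟨LinearIsometryEquiv.refl ℂ _⟩
  let j₀ : ∀ i, A i →⋆ₐ[ℂ] (lp (fun _ : W o => ℂ) 2 →L[ℂ] lp (fun _ : W o => ℂ) 2) :=
    fun i => (lam b e i).comp (π i)
  let s : Set (lp (fun _ : W o => ℂ) 2 →L[ℂ] lp (fun _ : W o => ℂ) 2) :=
    ⋃ i, Set.range (j₀ i)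
  let S := (StarAlgebra.adjoin ℂ s).topologicalClosure
  have hj₀ : ∀ i a, j₀ i a ∈ S := fun i a =>
    StarSubalgebra.le_topologicalClosure _
      (StarAlgebra.subset_adjoin ℂ s (Set.mem_iUnion.mpr ⟨i, a, rfl⟩))
  let j : ∀ i, A i →⋆ₐ[ℂ] S := fun i => (j₀ i).codRestrict S (hj₀ i)
  have hjc : ∀ i a, ((j i a : S) : lp (fun _ : W o => ℂ) 2 →L[ℂ] lp (fun _ : W o => ℂ) 2)
      = lam b e i (π i a) := fun i a => rfl
  have hψj : ∀ i a, vecFun S (e W.nil) (j i a) = φ i a := by
    intro i a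
    rw [vecFun_apply, hjc, inner_vac_lam, hbo, hφ]
  have hΩ : ‖e W.nil‖ = 1 := e.orthonormal.1 _
  refine ⟨S, inferInstance, vecFun S (e W.nil), j, hψj, ?_⟩
  refine ⟨⟨?_, ?_⟩, ?_, ?_, ?_⟩
  · rw [vecFun_apply]
    have h1 : (((1 : S) : lp (fun _ : W o => ℂ) 2 →L[ℂ] lp (fun _ : W o => ℂ) 2)) (e W.nil)
      = e W.nil := rfl
    rw [h1, inner_self_eq_norm_sq_to_K, hΩ]
    simp
  · intro a
    rw [vecFun_star_mul]
    refine ⟨?_, Complex.ofReal_im _⟩
    rw [Complex.ofReal_re]
    positivity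
  · intro l hne hch hl
    rw [vecFun_apply]
    have h1 : (((l.map Prod.snd).prod : S) :
        lp (fun _ : W o => ℂ) 2 →L[ℂ] lp (fun _ : W o => ℂ) 2)
        = ((l.map (fun p => (p.1, (p.2 : lp (fun _ : W o => ℂ) 2 →L[ℂ]
          lp (fun _ : W o => ℂ) 2)))).map Prod.snd).prod := by
      have h2 : ∀ l : List (I × S), (((l.map Prod.snd).prod : S) :
        lp (fun _ : W o => ℂ) 2 →L[ℂ] lp (fun _ : W o => ℂ) 2)
        = ((l.map (fun p => (p.1, (p.2 : lp (fun _ : W o => ℂ) 2 →L[ℂ]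
          lp (fun _ : W o => ℂ) 2)))).map Prod.snd).prod := by
        intro l
        induction l with
        | nil => rfl
        | cons p l ih =>
          simp only [List.map_cons, List.prod_cons]
          rw [← ih]
          rfl
      exact h2 l
    rw [h1]
    apply vac_free b e
    · simpa using hne
    · rw [List.isChain_map]
      exact hch
    · intro p hp
      obtain ⟨q, hq, rfl⟩ := List.mem_map.mp hp
      obtain ⟨hq1, hq2⟩ := hl q hq
      obtain ⟨a, ha⟩ : ∃ a, j q.1 a = q.2 := hq1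
      refine ⟨π q.1 a, ?_, ?_⟩
      · simp only
        rw [← ha, hjc]
      · rw [← ha, hψj, hφ] at hq2
        simp only
        rw [hbo]
        exact hq2
  · have h1 := dense_adjoin_closure s
    have h2 : ((↑) ⁻¹' s : Set ((StarAlgebra.adjoin ℂ s).topologicalClosure))
        = ⋃ i, ((j i).range : Set S) := by
      ext x
      simp only [Set.mem_preimage, Set.mem_iUnion, s]
      constructor
      · rintro ⟨i, a, ha⟩
        exact ⟨i, a, Subtype.ext ha⟩
      · rintro ⟨i, a, ha⟩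
        exact ⟨i, a, congrArg Subtype.val ha⟩
    rw [h2] at h1
    exact h1
  · intro x hx
    -- the closure of `S Ω` is everything
    let M : Submodule ℂ (lp (fun _ : W o => ℂ) 2) :=
      (S.toSubalgebra.toSubmodule.map
        (ContinuousLinearMap.apply ℂ (lp (fun _ : W o => ℂ) 2) (e W.nil)).toLinearMap)
    have hM : ∀ v, v ∈ M ↔ ∃ c ∈ S, c (e W.nil) = v := fun v => Iff.rfl
    have htop : M.topologicalClosure = ⊤ := by
      apply vac_cyclic b e _ M.isClosed_topologicalClosure _ (fun i => Set.range (π i))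
      · rintro i _ ⟨a, rfl⟩ v hv
        have hcl : IsClosed {v | lam b e i (π i a) v ∈ M.topologicalClosure} :=
          M.isClosed_topologicalClosure.preimage (lam b e i (π i a)).continuous
        have hsub : (M : Set (lp (fun _ : W o => ℂ) 2)) ⊆
            {v | lam b e i (π i a) v ∈ M.topologicalClosure} := by
          intro v hv
          obtain ⟨c, hc, rfl⟩ := (hM v).mp hv
          apply M.le_topologicalClosure
          exact (hM _).mpr ⟨lam b e i (π i a) * c, mul_mem (hj₀ i a) hc, rfl⟩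
        exact closure_minimal hsub hcl hv
      · intro i
        have h1 : ((fun T : H i →L[ℂ] H i => T (b i (o i))) '' Set.range (π i))
            = Set.range fun a => π i a (ξ i) := by
          rw [hbo]
          ext v
          simp
        rw [h1]
        exact hcyc i
      · apply M.le_topologicalClosure
        exact (hM _).mpr ⟨1, one_mem _, rfl⟩
    apply Subtype.ext
    ext1 v
    have hv : v ∈ M.topologicalClosure := by rw [htop]; trivial
    have hcl : IsClosed {v | (x : lp (fun _ : W o => ℂ) 2 →L[ℂ] lp (fun _ : W o => ℂ) 2) v = 0} :=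
      isClosed_eq (x : lp (fun _ : W o => ℂ) 2 →L[ℂ] lp (fun _ : W o => ℂ) 2).continuous
        continuous_const
    have hsub : (M : Set (lp (fun _ : W o => ℂ) 2)) ⊆
        {v | (x : lp (fun _ : W o => ℂ) 2 →L[ℂ] lp (fun _ : W o => ℂ) 2) v = 0} := by
      intro v hv
      obtain ⟨c, hc, rfl⟩ := (hM v).mp hv
      have h1 := hx ⟨c, hc⟩
      rw [vecFun_star_mul] at h1
      have h2 := Complex.ofReal_eq_zero.mp h1
      have h3 := pow_eq_zero_iff (two_ne_zero) |>.mp h2
      exact norm_eq_zero.mp h3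
    exact closure_minimal hsub hcl hv

end Pool.Agent.H89.RFP
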