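import Pool.Agent.H89.RFP.Gns

set_option autoImplicit false

noncomputable section

namespace Pool.Agent.H89.RFP

open scoped ENNReal InnerProductSpace

/-- the full Fock space of `ℓ²(ℕ)`, with orthonormal basis the finite words over `ℕ` -/
abbrev Fock : Type := lp (fun _ : List ℕ => ℂ) 2

/-- the basis of the Fock space -/
def fb : HilbertBasis (List ℕ) ℂ Fock := ⟨LinearIsometryEquiv.refl ℂ _⟩

lemma orthonormal_cons (n : ℕ) : Orthonormal ℂ (fun w : List ℕ => fb (n :: w)) :=
  fb.orthonormal.comp _ (fun _ _ h => by simpa using h)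

/-- the creation operators, as isometries -/
def crIso (n : ℕ) : Fock →ₗᵢ[ℂ] Fock :=
  (orthonormal_cons n).orthogonalFamily.linearIsometry.comp fb.repr.toLinearIsometry

/-- the creation operators -/
def cr (n : ℕ) : Fock →L[ℂ] Fock := (crIso n).toContinuousLinearMap

lemma cr_basis (n : ℕ) (w : List ℕ) : cr n (fb w) = fb (n :: w) := by
  classical
  have h0 : cr n (fb w)
      = (orthonormal_cons n).orthogonalFamily.linearIsometry (fb.repr (fb w)) := rfl
  rw [h0, HilbertBasis.repr_self, OrthogonalFamily.linearIsometry_apply_single]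
  simp

lemma inner_cr (n : ℕ) (u v : Fock) : ⟪cr n u, cr n v⟫_ℂ = ⟪u, v⟫_ℂ :=
  (crIso n).inner_map_map u v

lemma inner_cr_ne {m n : ℕ} (h : m ≠ n) (u v : Fock) : ⟪cr m u, cr n v⟫_ℂ = 0 := by
  have h1 : ⟪crIso m u, cr n v⟫_ℂ = 0 := by
    apply inner_map_eq_zero fb
    intro x
    right
    rw [← inner_conj_symm]
    have h2 : ⟪crIso n v, cr m (fb x)⟫_ℂ = 0 := by
      apply inner_map_eq_zero fb
      intro y
      right
      have h3 : crIso n (fb y) = fb (n :: y) := cr_basis n y
      rw [h3, cr_basis]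
      apply fb.orthonormal.2
      intro h4
      exact h (by simpa using (List.cons.inj h4).1.symm)
    have h5 : ⟪cr n v, crIso m (fb x)⟫_ℂ = ⟪crIso n v, cr m (fb x)⟫_ℂ := rfl
    rw [h5, h2, map_zero]
  exact h1

lemma star_cr_mul (n : ℕ) : star (cr n) * cr n = 1 := by
  rw [ContinuousLinearMap.star_eq_adjoint]
  ext1 v
  apply ext_inner_left ℂ
  intro u
  rw [mul_apply_eq_comp, ContinuousLinearMap.adjoint_inner_right, inner_cr]
  rfl

lemma star_cr_mul_ne {m n : ℕ} (h : m ≠ n) : star (cr m) * cr n = 0 := by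
  rw [ContinuousLinearMap.star_eq_adjoint]
  ext1 v
  apply ext_inner_left ℂ
  intro u
  rw [mul_apply_eq_comp, ContinuousLinearMap.adjoint_inner_right, inner_cr_ne h]
  simp

/-- vacuum expectation -/
def vac (x : Fock →L[ℂ] Fock) : ℂ := ⟪fb [], x (fb [])⟫_ℂ

lemma vac_cr_mul (n : ℕ) (x : Fock →L[ℂ] Fock) : vac (cr n * x) = 0 := by
  unfold vac
  rw [mul_apply_eq_comp, ← inner_conj_symm]
  have h2 : ⟪crIso n (x (fb [])), fb []⟫_ℂ = 0 := by
    apply inner_map_eq_zero fb
    intro y
    right
    have h3 : crIso n (fb y) = fb (n :: y) := cr_basis n y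
    rw [h3]
    exact fb.orthonormal.2 (by simp)
  have h4 : ⟪cr n (x (fb [])), fb []⟫_ℂ = ⟪crIso n (x (fb [])), fb []⟫_ℂ := rfl
  rw [h4, h2, map_zero]

lemma vac_star (x : Fock →L[ℂ] Fock) : vac (star x) = (starRingEnd ℂ) (vac x) := by
  unfold vac
  rw [ContinuousLinearMap.star_eq_adjoint, ContinuousLinearMap.adjoint_inner_right,
    inner_conj_symm]

lemma vac_one : vac 1 = 1 := by
  unfold vac
  rw [one_apply_eq_self, inner_self_eq_norm_sq_to_K, fb.orthonormal.1]
  simp

/-- products of creation operators -/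
def crw (μ : List ℕ) : Fock →L[ℂ] Fock := (μ.map cr).prod

@[simp] lemma crw_nil : crw [] = 1 := by simp [crw]
@[simp] lemma crw_cons (n : ℕ) (μ : List ℕ) : crw (n :: μ) = cr n * crw μ := by simp [crw]

lemma crw_append (μ ν : List ℕ) : crw (μ ++ ν) = crw μ * crw ν := by simp [crw]

lemma crw_vac (μ : List ℕ) : crw μ (fb []) = fb μ := by
  induction μ with
  | nil => simp
  | cons n μ ih => rw [crw_cons, mul_apply_eq_comp, ih, cr_basis]

/-- the span of the `s_μ s_ν*` -/
def crSpan : Submodule ℂ (Fock →L[ℂ] Fock) :=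
  Submodule.span ℂ {x | ∃ μ ν, x = crw μ * star (crw ν)}

lemma cr_mul_mem (n : ℕ) {x : Fock →L[ℂ] Fock} (hx : x ∈ crSpan) : cr n * x ∈ crSpan := by
  unfold crSpan at hx ⊢
  induction hx using Submodule.span_induction with
  | zero => simp
  | add x y _ _ hx hy => rw [mul_add]; exact add_mem hx hy
  | smul c x _ hx => rw [mul_smul_comm]; exact Submodule.smul_mem _ _ hx
  | mem x hx =>
    obtain ⟨μ, ν, rfl⟩ := hx
    exact Submodule.subset_span ⟨n :: μ, ν, by rw [crw_cons, mul_assoc]⟩

lemma star_cr_mul_mem (n : ℕ) {x : Fock →L[ℂ] Fock} (hx : x ∈ crSpan) :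
    star (cr n) * x ∈ crSpan := by
  unfold crSpan at hx ⊢
  induction hx using Submodule.span_induction with
  | zero => simp
  | add x y _ _ hx hy => rw [mul_add]; exact add_mem hx hy
  | smul c x _ hx => rw [mul_smul_comm]; exact Submodule.smul_mem _ _ hx
  | mem x hx =>
    obtain ⟨μ, ν, rfl⟩ := hx
    cases μ with
    | nil =>
      refine Submodule.subset_span ⟨[], ν ++ [n], ?_⟩
      rw [crw_append]
      simp [star_mul]
    | cons k μ =>
      rw [crw_cons, mul_assoc, ← mul_assoc (star (cr n))]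
      by_cases h : n = k
      · subst h
        rw [star_cr_mul, one_mul]
        exact Submodule.subset_span ⟨μ, ν, rfl⟩
      · rw [star_cr_mul_ne h, zero_mul]
        exact zero_mem _

lemma adjoin_le_crSpan {x : Fock →L[ℂ] Fock}
    (hx : x ∈ StarAlgebra.adjoin ℂ (Set.range cr)) : x ∈ crSpan := by
  have key : (∀ v ∈ crSpan, x * v ∈ crSpan) ∧ (∀ v ∈ crSpan, star x * v ∈ crSpan) := by
    induction hx using StarAlgebra.adjoin_induction with
    | mem x hx =>
      obtain ⟨n, rfl⟩ := hx
      exact ⟨fun v hv => cr_mul_mem n hv, fun v hv => star_cr_mul_mem n hv⟩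
    | algebraMap r =>
      refine ⟨fun v hv => ?_, fun v hv => ?_⟩
      · rw [← Algebra.smul_def]; exact Submodule.smul_mem _ _ hv
      · rw [← algebraMap_star_comm, ← Algebra.smul_def]; exact Submodule.smul_mem _ _ hv
    | add x y _ _ hx hy =>
      refine ⟨fun v hv => ?_, fun v hv => ?_⟩
      · rw [add_mul]; exact add_mem (hx.1 v hv) (hy.1 v hv)
      · rw [star_add, add_mul]; exact add_mem (hx.2 v hv) (hy.2 v hv)
    | mul x y _ _ hx hy =>
      refine ⟨fun v hv => ?_, fun v hv => ?_⟩
      · rw [mul_assoc]; exact hx.1 _ (hy.1 v hv)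
      · rw [star_mul, mul_assoc]; exact hy.2 _ (hx.2 v hv)
    | star x _ hx =>
      exact ⟨hx.2, fun v hv => by rw [star_star]; exact hx.1 v hv⟩
  have h1 : (1 : Fock →L[ℂ] Fock) ∈ crSpan := Submodule.subset_span ⟨[], [], by simp⟩
  simpa using key.1 1 h1

/-- on the algebra generated by the creation operators, `s_m* x s_m` is a scalar for large `m` -/
lemma eventually_scalar {x : Fock →L[ℂ] Fock} (hx : x ∈ crSpan) :
    ∃ N, ∀ m, N ≤ m → star (cr m) * x * cr m = vac x • (1 : Fock →L[ℂ] Fock) := by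
  unfold crSpan at hx
  induction hx using Submodule.span_induction with
  | zero => exact ⟨0, fun m _ => by simp [vac]⟩
  | add x y _ _ hx hy =>
    obtain ⟨N, hN⟩ := hx
    obtain ⟨M, hM⟩ := hy
    refine ⟨max N M, fun m hm => ?_⟩
    have h1 : vac (x + y) = vac x + vac y := by simp [vac, inner_add_right]
    rw [mul_add, add_mul, hN m ((le_max_left _ _).trans hm), hM m ((le_max_right _ _).trans hm),
      h1, add_smul]
  | smul c x _ hx =>
    obtain ⟨N, hN⟩ := hx
    refine ⟨N, fun m hm => ?_⟩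
    have h1 : vac (c • x) = c * vac x := by simp [vac, inner_smul_right]
    rw [mul_smul_comm, smul_mul_assoc, hN m hm, h1, smul_smul]
  | mem x hx =>
    obtain ⟨μ, ν, rfl⟩ := hx
    cases μ with
    | cons k μ =>
      refine ⟨k + 1, fun m hm => ?_⟩
      have hmk : m ≠ k := by omega
      have h1 : vac (crw (k :: μ) * star (crw ν)) = 0 := by
        rw [crw_cons, mul_assoc, vac_cr_mul]
      have h2 : star (cr m) * (crw (k :: μ) * star (crw ν)) = 0 := by
        rw [crw_cons, mul_assoc, ← mul_assoc (star (cr m)), star_cr_mul_ne hmk, zero_mul]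
      rw [h1, h2, zero_mul, zero_smul]
    | nil =>
      cases ν with
      | cons k ν =>
        refine ⟨k + 1, fun m hm => ?_⟩
        have hmk : k ≠ m := by omega
        have h1 : vac (crw [] * star (crw (k :: ν))) = 0 := by
          rw [crw_nil, one_mul, vac_star, crw_cons, vac_cr_mul, map_zero]
        have h2 : crw [] * star (crw (k :: ν)) * cr m = 0 := by
          rw [crw_nil, one_mul, crw_cons, star_mul, mul_assoc, star_cr_mul_ne hmk, mul_zero]
        rw [h1, mul_assoc, h2, mul_zero, zero_smul]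
      | nil =>
        refine ⟨0, fun m _ => ?_⟩
        have h1 : crw [] * star (crw []) = 1 := by simp
        rw [h1, vac_one, mul_one, star_cr_mul, one_smul]

/-- the Cuntz algebra on infinitely many generators, on Fock space -/
def CuntzFock : StarSubalgebra ℂ (Fock →L[ℂ] Fock) :=
  (StarAlgebra.adjoin ℂ (Set.range cr)).topologicalClosure

instance : IsClosed (CuntzFock : Set (Fock →L[ℂ] Fock)) :=
  StarSubalgebra.isClosed_topologicalClosure _

lemma cr_mem (n : ℕ) : cr n ∈ CuntzFock :=
  StarSubalgebra.le_topologicalClosure _ (StarAlgebra.subset_adjoin ℂ _ ⟨n, rfl⟩)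

lemma crw_mem (μ : List ℕ) : crw μ ∈ CuntzFock := by
  induction μ with
  | nil => rw [crw_nil]; exact one_mem _
  | cons n μ ih => rw [crw_cons]; exact mul_mem (cr_mem n) ih

theorem isCuntzInfinity_cuntzFock : IsCuntzInfinity CuntzFock := by
  refine ⟨?_, fun n => ⟨cr n, cr_mem n⟩, ?_, ?_, ?_⟩
  · refine ⟨⟨0, 1, ?_⟩⟩
    intro h
    have h1 : (0 : Fock →L[ℂ] Fock) = 1 := congrArg Subtype.val h
    have h2 := vac_one
    rw [← h1] at h2
    simp [vac] at h2
  · intro n
    exact Subtype.ext (star_cr_mul n)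
  · intro m n h
    exact Subtype.ext (star_cr_mul_ne h)
  · have h1 := dense_adjoin_closure (Set.range cr)
    have h2 : ((↑) ⁻¹' (Set.range cr) :
        Set ((StarAlgebra.adjoin ℂ (Set.range cr)).topologicalClosure))
        = Set.range (fun n => (⟨cr n, cr_mem n⟩ :
          (StarAlgebra.adjoin ℂ (Set.range cr)).topologicalClosure)) := by
      ext x
      constructor
      · rintro ⟨n, hn⟩
        exact ⟨n, Subtype.ext hn⟩
      · rintro ⟨n, hn⟩
        exact ⟨n, congrArg Subtype.val hn⟩
    rw [h2] at h1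
    exact h1

lemma norm_cr_le (n : ℕ) : ‖cr n‖ ≤ 1 := (crIso n).norm_toContinuousLinearMap_le

theorem isPurelyInfiniteSimple_cuntzFock : IsPurelyInfiniteSimple CuntzFock := by
  refine ⟨⟨⟨cr 0, cr_mem 0⟩, ?_⟩, ?_⟩
  · intro z h
    have h1 : cr 0 = z • (1 : Fock →L[ℂ] Fock) := by
      have := congrArg Subtype.val h
      rw [Algebra.algebraMap_eq_smul_one] at this
      exact this
    have h2 : vac (cr 0 * 1) = 0 := vac_cr_mul 0 1
    rw [mul_one, h1] at h2
    have h3 : vac (z • (1 : Fock →L[ℂ] Fock)) = z := by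
      have : vac (z • (1 : Fock →L[ℂ] Fock)) = z * vac 1 := by simp [vac, inner_smul_right]
      rw [this, vac_one, mul_one]
    rw [h3] at h2
    subst h2
    have h4 := star_cr_mul 0
    rw [h1] at h4
    simp only [zero_smul, mul_zero] at h4
    have h5 := vac_one
    rw [← h4] at h5
    simp [vac] at h5
  · rintro ⟨a, ha⟩ hne
    have hne' : a ≠ 0 := fun h => hne (Subtype.ext h)
    -- a word `w` with `a e_w ≠ 0`
    obtain ⟨w, hw⟩ : ∃ w, a (fb w) ≠ 0 := by
      by_contra hcon
      push Not at hcon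
      apply hne'
      ext1 v
      have hcl : IsClosed (LinearMap.ker (a : Fock →ₗ[ℂ] Fock) : Set Fock) := by
        have : (LinearMap.ker (a : Fock →ₗ[ℂ] Fock) : Set Fock) = {v | a v = 0} := rfl
        rw [this]
        exact isClosed_eq a.continuous continuous_const
      have hle : (Submodule.span ℂ (Set.range fb)).topologicalClosure
          ≤ LinearMap.ker (a : Fock →ₗ[ℂ] Fock) := by
        apply Submodule.topologicalClosure_minimal _ _ hcl
        apply Submodule.span_le.mpr
        rintro _ ⟨w, rfl⟩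
        exact hcon w
      rw [fb.dense_span] at hle
      exact hle (Submodule.mem_top : v ∈ ⊤)
    set c : ℝ := ‖a (fb w)‖ ^ 2 with hc
    have hc0 : 0 < c := by
      have := norm_pos_iff.mpr hw
      positivity
    set bb : Fock →L[ℂ] Fock := star (a * crw w) * (a * crw w) with hbb
    have hbm : bb ∈ CuntzFock := mul_mem (star_mem (mul_mem ha (crw_mem w)))
      (mul_mem ha (crw_mem w))
    have hvb : vac bb = c := by
      unfold vac
      rw [hbb, mul_apply_eq_comp, ContinuousLinearMap.star_eq_adjoint,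
        ContinuousLinearMap.adjoint_inner_right, mul_apply_eq_comp, crw_vac,
        inner_self_eq_norm_sq_to_K, hc]
      simp
    -- approximation
    have hbcl : bb ∈ closure ((StarAlgebra.adjoin ℂ (Set.range cr) : StarSubalgebra ℂ _) :
        Set (Fock →L[ℂ] Fock)) := by
      have := hbm
      unfold CuntzFock at this
      rwa [← SetLike.mem_coe, StarSubalgebra.topologicalClosure_coe] at this
    obtain ⟨x, hx, hxb⟩ := Metric.mem_closure_iff.mp hbcl (c / 3) (by positivity)
    obtain ⟨m, hm⟩ := eventually_scalar (adjoin_le_crSpan hx)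
    have hm := hm m le_rfl
    rw [dist_eq_norm] at hxb
    have hvac : ‖vac x - c‖ ≤ c / 3 := by
      rw [← hvb]
      have h1 : vac x - vac bb = vac (x - bb) := by simp [vac, inner_sub_right]
      rw [h1]
      unfold vac
      refine (norm_inner_le_norm _ _).trans ?_
      rw [fb.orthonormal.1, one_mul]
      refine ((x - bb).le_opNorm _).trans ?_
      rw [fb.orthonormal.1, mul_one, ← norm_neg, neg_sub]
      exact hxb.le
    have hclose : ‖star (cr m) * bb * cr m - (c : ℂ) • (1 : Fock →L[ℂ] Fock)‖ < c := by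
      have h1 : star (cr m) * bb * cr m - (c : ℂ) • (1 : Fock →L[ℂ] Fock)
          = star (cr m) * (bb - x) * cr m + (vac x - c) • (1 : Fock →L[ℂ] Fock) := by
        rw [mul_sub, sub_mul, hm, sub_smul]; abel
      rw [h1]
      have h2 : ‖star (cr m) * (bb - x) * cr m‖ ≤ ‖bb - x‖ := by
        calc ‖star (cr m) * (bb - x) * cr m‖ ≤ ‖star (cr m)‖ * ‖bb - x‖ * ‖cr m‖ :=
              (norm_mul_le _ _).trans (by gcongr; exact norm_mul_le _ _)
          _ ≤ 1 * ‖bb - x‖ * 1 := by
              have hns : ‖star (cr m)‖ ≤ 1 := by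
                rw [ContinuousLinearMap.star_eq_adjoint, LinearIsometryEquiv.norm_map]
                exact norm_cr_le m
              gcongr
              exact norm_cr_le m
          _ = ‖bb - x‖ := by ring
      have h3 : ‖(vac x - c) • (1 : Fock →L[ℂ] Fock)‖ ≤ c / 3 := by
        rw [norm_smul]
        have : ‖(1 : Fock →L[ℂ] Fock)‖ ≤ 1 := ContinuousLinearMap.norm_id_le
        calc ‖vac x - c‖ * ‖(1 : Fock →L[ℂ] Fock)‖ ≤ (c / 3) * 1 := by gcongr
          _ = c / 3 := mul_one _
      calc _ ≤ ‖star (cr m) * (bb - x) * cr m‖ + ‖(vac x - c) • (1 : Fock →L[ℂ] Fock)‖ :=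
            norm_add_le _ _
        _ < c / 3 + c / 3 + c / 3 := by linarith
        _ = c := by ring
    -- invertibility in `CuntzFock`
    let A' : CuntzFock := ⟨a, ha⟩
    let Sm : CuntzFock := ⟨cr m, cr_mem m⟩
    let Sw : CuntzFock := ⟨crw w, crw_mem w⟩
    let U : CuntzFock := ((c : ℂ)⁻¹) • (star Sm * (star (A' * Sw) * (A' * Sw)) * Sm)
    have hcc : (c : ℂ) ≠ 0 := by exact_mod_cast hc0.ne'
    have hU : ‖(1 : CuntzFock) - U‖ < 1 := by
      have h1 : (1 : CuntzFock) - U = (-(c : ℂ)⁻¹) •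
          ((star Sm * (star (A' * Sw) * (A' * Sw)) * Sm) - (c : ℂ) • 1) := by
        rw [smul_sub, neg_smul, neg_smul, smul_smul, inv_mul_cancel₀ hcc, one_smul]
        simp only [U]
        abel
      rw [h1, norm_smul]
      have h2 : ‖(star Sm * (star (A' * Sw) * (A' * Sw)) * Sm) - (c : ℂ) • (1 : CuntzFock)‖ < c :=
        hclose
      have h3 : ‖(-(c : ℂ)⁻¹)‖ = c⁻¹ := by
        rw [norm_neg, norm_inv, Complex.norm_real, Real.norm_of_nonneg hc0.le]
      rw [h3]
      calc c⁻¹ * _ < c⁻¹ * c := by gcongr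
        _ = 1 := inv_mul_cancel₀ hc0.ne'
    have hunit : IsUnit U := by
      have := isUnit_one_sub_of_norm_lt_one hU
      simpa using this
    obtain ⟨u, hu⟩ := hunit
    refine ⟨((↑u⁻¹ : CuntzFock) * ((c : ℂ)⁻¹ • star Sm)) * star (A' * Sw), Sw * Sm, ?_⟩
    have h1 : (↑u⁻¹ : CuntzFock) * U = 1 := by rw [← hu]; simp
    calc _ = (↑u⁻¹ : CuntzFock) * ((c : ℂ)⁻¹ • (star Sm * (star (A' * Sw) * (A' * Sw)) * Sm)) := by
          simp only [mul_assoc, smul_mul_assoc, A']
      _ = 1 := h1

end Pool.Agent.H89.RFP
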