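import Pool.Agent.H89.RFP.States

set_option autoImplicit false

noncomputable section

namespace Pool.Agent.H89.RFP

variable {O : Type*} [CStarAlgebra O]

/-- the map `y ↦ s* y t` -/
def sandwich (s t : O) : O →L[ℂ] O :=
  (ContinuousLinearMap.mul ℂ O (star s)).comp ((ContinuousLinearMap.mul ℂ O).flip t)

@[simp] lemma sandwich_apply (s t y : O) : sandwich s t y = star s * (y * t) := by
  simp [sandwich]

lemma norm_isometry_le {s : O} (hs : star s * s = 1) : ‖s‖ ≤ 1 := by
  have h1 : ‖s‖ * ‖s‖ = ‖(1 : O)‖ := by rw [← CStarRing.norm_star_mul_self, hs]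
  have h2 : ‖(1 : O)‖ ≤ 1 := by
    rcases subsingleton_or_nontrivial O with hO | hO
    · rw [Subsingleton.elim (1 : O) 0, norm_zero]; exact zero_le_one
    · exact CStarRing.norm_one.le
  nlinarith [norm_nonneg s]

lemma star_pow_mul_pow {s : O} (hs : star s * s = 1) (n : ℕ) : star (s ^ n) * s ^ n = 1 := by
  induction n with
  | zero => simp
  | succ n ih =>
    rw [pow_succ', star_mul]
    calc star (s ^ n) * star s * (s * s ^ n) = star (s ^ n) * (star s * s) * s ^ n := by
          simp only [mul_assoc]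
      _ = 1 := by rw [hs, mul_one, ih]

lemma norm_sandwich_le {s : O} (hs : star s * s = 1) (n : ℕ) :
    ‖sandwich (s ^ n) (s ^ n)‖ ≤ 1 := by
  apply ContinuousLinearMap.opNorm_le_bound _ zero_le_one
  intro y
  have h1 := norm_isometry_le (star_pow_mul_pow hs n)
  rw [sandwich_apply]
  calc ‖star (s ^ n) * (y * s ^ n)‖ ≤ ‖star (s ^ n)‖ * (‖y‖ * ‖s ^ n‖) :=
        (norm_mul_le _ _).trans (by gcongr; exact norm_mul_le _ _)
    _ ≤ 1 * (‖y‖ * 1) := by rw [norm_star]; gcongr
    _ = 1 * ‖y‖ := by ring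

/-- The state `ω = ∑ (1 - r) r^n ρ (s*^n · s^n)` built from a state `ρ` which vanishes on `s O`. -/
theorem twisted_state_of {s : O} (hs : star s * s = 1) {ρ : O →L[ℂ] ℂ} (hρ : IsState ρ)
    (hρs : ∀ y, ρ (s * y) = 0) {r : ℝ} (hr0 : 0 < r) (hr1 : r < 1) :
    ∃ ω : O →L[ℂ] ℂ, IsState ω ∧ (∀ y, ω (s * y) = (r : ℂ) * ω (y * s)) ∧
      ∀ a, ω (star a * a) = 0 → ∀ n : ℕ, ρ (star (a * s ^ n) * (a * s ^ n)) = 0 := by
  obtain ⟨hρ1, hρpos⟩ := hρ
  set f : ℕ → (O →L[ℂ] ℂ) := fun n => ((1 - r) * r ^ n) • (ρ.comp (sandwich (s ^ n) (s ^ n)))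
    with hf
  have hfn : ∀ n, ‖f n‖ ≤ ((1 - r) * r ^ n) * ‖ρ‖ := by
    intro n
    rw [hf]
    simp only
    rw [norm_smul, Real.norm_of_nonneg (by
      have : 0 ≤ 1 - r := by linarith
      positivity)]
    have h1 : ‖ρ.comp (sandwich (s ^ n) (s ^ n))‖ ≤ ‖ρ‖ := by
      refine (ContinuousLinearMap.opNorm_comp_le _ _).trans ?_
      have := norm_sandwich_le hs n
      calc ‖ρ‖ * ‖sandwich (s ^ n) (s ^ n)‖ ≤ ‖ρ‖ * 1 := by gcongr
        _ = ‖ρ‖ := mul_one _
    have : 0 ≤ 1 - r := by linarith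
    gcongr
  have hgeo : Summable (fun n : ℕ => ((1 - r) * r ^ n) * ‖ρ‖) :=
    ((summable_geometric_of_lt_one hr0.le hr1).mul_left _).mul_right _
  have hsum : Summable f := Summable.of_norm_bounded hgeo hfn
  have happ : ∀ y, HasSum (fun n => f n y) ((∑' n, f n) y) := by
    intro y
    let ev : (O →L[ℂ] ℂ) →L[ℂ] ℂ := ContinuousLinearMap.apply ℂ ℂ y
    have h := ev.hasSum hsum.hasSum
    exact h
  have hfa : ∀ n y, f n y = (((1 - r) * r ^ n : ℝ) : ℂ) * ρ (star (s ^ n) * (y * s ^ n)) := by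
    intro n y
    rw [hf]
    simp
  refine ⟨∑' n, f n, ⟨?_, ?_⟩, ?_, ?_⟩
  · have h1 := happ 1
    have h2 : HasSum (fun n => f n 1) 1 := by
      have h3 : (fun n => f n 1) = fun n => (((1 - r) * r ^ n : ℝ) : ℂ) := by
        funext n
        rw [hfa, one_mul, star_pow_mul_pow hs, hρ1, mul_one]
      rw [h3]
      have h4 : HasSum (fun n : ℕ => (1 - r) * r ^ n) 1 := by
        have h5 := (hasSum_geometric_of_lt_one hr0.le hr1).mul_left (1 - r)
        rwa [mul_inv_cancel₀ (by linarith)] at h5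
      have := Complex.hasSum_ofReal.mpr h4
      simpa using this
    exact h1.unique h2
  · intro a
    have h1 := happ (star a * a)
    have h2 : ∀ n, 0 ≤ (f n (star a * a)).re ∧ (f n (star a * a)).im = 0 := by
      intro n
      rw [hfa]
      have h3 : star (s ^ n) * (star a * a * s ^ n) = star (a * s ^ n) * (a * s ^ n) := by
        simp [star_mul, mul_assoc]
      rw [h3]
      have h4 := hρpos (a * s ^ n)
      have h5 : 0 ≤ (1 - r) * r ^ n := by
        have : 0 ≤ 1 - r := by linarith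
        positivity
      rw [Complex.re_ofReal_mul, Complex.im_ofReal_mul, h4.2]
      exact ⟨mul_nonneg h5 h4.1, by simp⟩
    refine ⟨?_, ?_⟩
    · have h3 := Complex.reCLM.hasSum h1
      exact h3.nonneg (fun n => (h2 n).1)
    · have h3 := Complex.imCLM.hasSum h1
      have h4 : (fun n => Complex.imCLM (f n (star a * a))) = fun _ => (0 : ℝ) := by
        funext n; exact (h2 n).2
      rw [h4] at h3
      exact h3.unique hasSum_zero
  · intro y
    have h1 := happ (s * y)
    have h2 := (happ (y * s)).mul_left (r : ℂ)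
    have h3 : f 0 (s * y) = 0 := by
      rw [hfa]; simp [hρs]
    have h4 : ∀ n, f (n + 1) (s * y) = (r : ℂ) * f n (y * s) := by
      intro n
      rw [hfa, hfa]
      have h5 : star (s ^ (n + 1)) * (s * y * s ^ (n + 1)) = star (s ^ n) * (y * s * s ^ n) := by
        rw [pow_succ', star_mul]
        calc star (s ^ n) * star s * (s * y * (s * s ^ n))
            = star (s ^ n) * ((star s * s) * y * (s * s ^ n)) := by simp only [mul_assoc]
          _ = _ := by rw [hs]; simp only [one_mul, mul_assoc]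
      rw [h5]
      push_cast
      ring
    have h6 : HasSum (fun n => f (n + 1) (s * y)) ((∑' n, f n) (s * y)) := by
      have := (hasSum_nat_add_iff' (f := fun n => f n (s * y)) 1).mpr h1
      simpa [h3] using this
    have h7 : (fun n => f (n + 1) (s * y)) = fun n => (r : ℂ) * f n (y * s) := funext h4
    rw [h7] at h6
    exact h6.unique h2
  · intro a ha n
    have h1 := happ (star a * a)
    rw [ha] at h1
    have hfn2 : ∀ n, f n (star a * a)
        = (((1 - r) * r ^ n : ℝ) : ℂ) * ρ (star (a * s ^ n) * (a * s ^ n)) := by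
      intro n
      rw [hfa]
      have h3 : star (s ^ n) * (star a * a * s ^ n) = star (a * s ^ n) * (a * s ^ n) := by
        simp [star_mul, mul_assoc]
      rw [h3]
    have h5 : ∀ n : ℕ, 0 < (1 - r) * r ^ n := by
      intro n
      have : 0 < 1 - r := by linarith
      positivity
    have h2 := Complex.reCLM.hasSum h1
    have h3 : ∀ n, 0 ≤ Complex.reCLM (f n (star a * a)) := by
      intro n
      rw [hfn2]
      change 0 ≤ ((((1 - r) * r ^ n : ℝ) : ℂ) * ρ (star (a * s ^ n) * (a * s ^ n))).re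
      rw [Complex.re_ofReal_mul]
      exact mul_nonneg (h5 n).le (hρpos _).1
    have h4 : (fun n => Complex.reCLM (f n (star a * a))) = 0 :=
      (hasSum_zero_iff_of_nonneg h3).mp (by simpa using h2)
    have h6 := congrFun h4 n
    rw [hfn2] at h6
    change ((((1 - r) * r ^ n : ℝ) : ℂ) * ρ (star (a * s ^ n) * (a * s ^ n))).re = 0 at h6
    rw [Complex.re_ofReal_mul] at h6
    rcases mul_eq_zero.mp h6 with h7 | h7
    · exact absurd h7 (h5 n).ne'
    · exact Complex.ext h7 (hρpos _).2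

/-- In a C*-algebra with two isometries `s`, `t` with orthogonal ranges there is, for each
`r ∈ (0,1)`, a state `ω` with `ω (s y) = r ω (y s)` for all `y`. -/
theorem exists_twisted_state [Nontrivial O] {s t : O} (hs : star s * s = 1) (ht : star t * t = 1)
    (hts : star t * s = 0) {r : ℝ} (hr0 : 0 < r) (hr1 : r < 1) :
    ∃ ω : O →L[ℂ] ℂ, IsState ω ∧ ∀ y, ω (s * y) = (r : ℂ) * ω (y * s) := by
  obtain ⟨τ, hτ1, hτ⟩ := exists_state O
  set ρ : O →L[ℂ] ℂ := τ.comp (sandwich t t) with hρ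
  have hρ1 : ρ 1 = 1 := by simp [hρ, ht, hτ1]
  have hρpos : ∀ a, 0 ≤ (ρ (star a * a)).re ∧ (ρ (star a * a)).im = 0 := by
    intro a
    have h1 : ρ (star a * a) = τ (star (a * t) * (a * t)) := by
      simp [hρ, star_mul, mul_assoc]
    rw [h1]; exact hτ _
  have hρs : ∀ y, ρ (s * y) = 0 := by
    intro y
    have : star t * (s * y * t) = 0 := by
      rw [← mul_assoc, ← mul_assoc, hts]; simp
    simp [hρ, this]
  obtain ⟨ω, h1, h2, _⟩ := twisted_state_of hs ⟨hρ1, hρpos⟩ hρs hr0 hr1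
  exact ⟨ω, h1, h2⟩

end Pool.Agent.H89.RFP
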