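import Pool.Agent.H89.RFP.Fock
import Pool.Agent.H89.RFP.Twist

set_option autoImplicit false

noncomputable section

namespace Pool.Agent.H89.RFP

open scoped ENNReal InnerProductSpace

/-- words not starting with the letter `0` -/
def N0 : Type := {w : List ℕ // ∀ v, w ≠ 0 :: v}

instance : Countable N0 := inferInstanceAs (Countable {w : List ℕ // ∀ v, w ≠ 0 :: v})

instance : Nonempty N0 := ⟨⟨[], by simp⟩⟩

lemma exists_weights : ∃ g : N0 → ℝ, (∀ ν, 0 < g ν) ∧ HasSum g 1 := by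
  obtain ⟨g, hg, c, hc, _⟩ := posSumOfEncodable_exists
  have hc0 : 0 < c := by
    obtain ⟨ν⟩ := (inferInstance : Nonempty N0)
    exact (hg ν).trans_le (le_hasSum hc ν (fun i _ => (hg i).le))
  refine ⟨fun ν => g ν / c, fun ν => div_pos (hg ν) hc0, ?_⟩
  have := hc.div_const c
  rwa [div_self hc0.ne'] at this
where
  posSumOfEncodable_exists : ∃ g : N0 → ℝ, (∀ ν, 0 < g ν) ∧ ∃ c, HasSum g c ∧ c ≤ 1 := by
    haveI : Encodable N0 := Encodable.ofCountable N0
    exact ⟨_, (posSumOfEncodable one_pos N0).2.1, (posSumOfEncodable one_pos N0).2.2⟩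

/-- a convex combination of countably many states -/
lemma sum_states {O : Type*} [CStarAlgebra O] {ι : Type*} (τ : ι → O →L[ℂ] ℂ)
    (hτ : ∀ ν, IsState (τ ν)) (hn : ∀ ν, ‖τ ν‖ ≤ 1) (g : ι → ℝ) (hg : ∀ ν, 0 < g ν)
    (hg1 : HasSum g 1) : ∃ ρ : O →L[ℂ] ℂ, IsState ρ ∧ (∀ y, (∀ ν, τ ν y = 0) → ρ y = 0) ∧
      ∀ a, ρ (star a * a) = 0 → ∀ ν, τ ν (star a * a) = 0 := by
  set f : ι → (O →L[ℂ] ℂ) := fun ν => (g ν : ℂ) • τ ν with hf
  have hfn : ∀ ν, ‖f ν‖ ≤ g ν := by
    intro ν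
    rw [hf]
    simp only
    rw [norm_smul, Complex.norm_real, Real.norm_of_nonneg (hg ν).le]
    calc g ν * ‖τ ν‖ ≤ g ν * 1 := by
          have := hn ν
          have := (hg ν).le
          gcongr
      _ = g ν := mul_one _
  have hsum : Summable f := Summable.of_norm_bounded hg1.summable hfn
  have happ : ∀ y, HasSum (fun n => f n y) ((∑' n, f n) y) := by
    intro y
    let ev : (O →L[ℂ] ℂ) →L[ℂ] ℂ := ContinuousLinearMap.apply ℂ ℂ y
    have h := ev.hasSum hsum.hasSum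
    exact h
  have hfa : ∀ ν y, f ν y = (g ν : ℂ) * τ ν y := by
    intro ν y; rfl
  refine ⟨∑' n, f n, ⟨?_, ?_⟩, ?_, ?_⟩
  · have h1 := happ 1
    have h2 : HasSum (fun n => f n 1) 1 := by
      have h3 : (fun n => f n 1) = fun n => ((g n : ℝ) : ℂ) := by
        funext n
        rw [hfa, (hτ n).1, mul_one]
      rw [h3]
      have := Complex.hasSum_ofReal.mpr hg1
      simpa using this
    exact h1.unique h2
  · intro a
    have h1 := happ (star a * a)
    refine ⟨?_, ?_⟩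
    · have h3 := Complex.reCLM.hasSum h1
      refine h3.nonneg (fun ν => ?_)
      change 0 ≤ (f ν (star a * a)).re
      rw [hfa, Complex.re_ofReal_mul]
      exact mul_nonneg (hg ν).le ((hτ ν).2 a).1
    · have h3 := Complex.imCLM.hasSum h1
      have h4 : (fun n => Complex.imCLM (f n (star a * a))) = fun _ => (0 : ℝ) := by
        funext n
        change (f n (star a * a)).im = 0
        rw [hfa, Complex.im_ofReal_mul, ((hτ n).2 a).2, mul_zero]
      rw [h4] at h3
      exact h3.unique hasSum_zero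
  · intro y hy
    have h1 := happ y
    have h2 : (fun ν => f ν y) = fun _ => (0 : ℂ) := by
      funext ν
      rw [hfa, hy ν, mul_zero]
    rw [h2] at h1
    exact h1.unique hasSum_zero
  · intro a ha ν
    have h1 := happ (star a * a)
    rw [ha] at h1
    have h2 := Complex.reCLM.hasSum h1
    have h3 : ∀ ν, 0 ≤ Complex.reCLM (f ν (star a * a)) := by
      intro ν
      change 0 ≤ (f ν (star a * a)).re
      rw [hfa, Complex.re_ofReal_mul]
      exact mul_nonneg (hg ν).le ((hτ ν).2 a).1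
    have h4 : (fun n => Complex.reCLM (f n (star a * a))) = 0 :=
      (hasSum_zero_iff_of_nonneg h3).mp (by simpa using h2)
    have h6 := congrFun h4 ν
    change (f ν (star a * a)).re = 0 at h6
    rw [hfa, Complex.re_ofReal_mul] at h6
    rcases mul_eq_zero.mp h6 with h7 | h7
    · exact absurd h7 (hg ν).ne'
    · exact Complex.ext h7 ((hτ ν).2 a).2

lemma vecFun_norm_le (w : List ℕ) : ‖vecFun CuntzFock (fb w)‖ ≤ 1 := by
  apply ContinuousLinearMap.opNorm_le_bound _ zero_le_one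
  intro a
  rw [vecFun_apply]
  refine (norm_inner_le_norm _ _).trans ?_
  rw [fb.orthonormal.1, one_mul]
  refine ((a : Fock →L[ℂ] Fock).le_opNorm _).trans ?_
  rw [fb.orthonormal.1, mul_one, one_mul]
  exact le_rfl

lemma vecFun_isState (w : List ℕ) : IsState (vecFun CuntzFock (fb w)) := by
  refine ⟨?_, ?_⟩
  · rw [vecFun_apply]
    have h4 : ((1 : CuntzFock) : Fock →L[ℂ] Fock) (fb w) = fb w := rfl
    rw [h4, inner_self_eq_norm_sq_to_K, fb.orthonormal.1]
    simp
  · intro a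
    rw [vecFun_star_mul]
    refine ⟨?_, Complex.ofReal_im _⟩
    rw [Complex.ofReal_re]
    positivity

/-- a state on the Cuntz algebra on Fock space which vanishes on `s₀ O` and is faithful on the
complement -/
lemma exists_rho : ∃ ρ : CuntzFock →L[ℂ] ℂ, IsState ρ ∧
    (∀ y, ρ ((⟨cr 0, cr_mem 0⟩ : CuntzFock) * y) = 0) ∧
    ∀ a : CuntzFock, ρ (star a * a) = 0 →
      ∀ ν : N0, (a : Fock →L[ℂ] Fock) (fb ν.1) = 0 := by
  obtain ⟨g, hg, hg1⟩ := exists_weights
  obtain ⟨ρ, h1, h2, h3⟩ := sum_states (O := CuntzFock)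
    (fun ν : N0 => vecFun CuntzFock (fb ν.1)) (fun ν => vecFun_isState ν.1)
    (fun ν => vecFun_norm_le ν.1) g hg hg1
  refine ⟨ρ, h1, ?_, ?_⟩
  · intro y
    apply h2
    intro ν
    rw [vecFun_apply]
    have h3 : (((⟨cr 0, cr_mem 0⟩ : CuntzFock) * y : CuntzFock) : Fock →L[ℂ] Fock) (fb ν.1)
        = crIso 0 ((y : Fock →L[ℂ] Fock) (fb ν.1)) := rfl
    rw [h3, ← inner_conj_symm]
    have h4 : ⟪crIso 0 ((y : Fock →L[ℂ] Fock) (fb ν.1)), fb ν.1⟫_ℂ = 0 := by
      apply inner_map_eq_zero fb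
      intro w
      right
      have h5 : crIso 0 (fb w) = fb (0 :: w) := cr_basis 0 w
      rw [h5]
      exact fb.orthonormal.2 (ν.2 w).symm
    rw [h4, map_zero]
  · intro a ha ν
    have h4 := h3 a ha ν
    rw [vecFun_star_mul] at h4
    have h5 := Complex.ofReal_eq_zero.mp h4
    exact norm_eq_zero.mp (pow_eq_zero_iff (two_ne_zero) |>.mp h5)

lemma exists_zeros (w : List ℕ) : ∃ (n : ℕ) (ν : N0), w = List.replicate n 0 ++ ν.1 := by
  induction w with
  | nil => exact ⟨0, ⟨[], by simp⟩, by simp⟩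
  | cons k w ih =>
    by_cases hk : k = 0
    · subst hk
      obtain ⟨n, ν, rfl⟩ := ih
      exact ⟨n + 1, ν, by simp [List.replicate_succ]⟩
    · exact ⟨0, ⟨k :: w, by intro v h; exact hk (List.cons.inj h).1⟩, by simp⟩

lemma cr_pow_basis (n : ℕ) (w : List ℕ) :
    ((cr 0) ^ n) (fb w) = fb (List.replicate n 0 ++ w) := by
  induction n with
  | zero => simp
  | succ n ih =>
    rw [pow_succ', mul_apply_eq_comp, ih, cr_basis, List.replicate_succ, List.cons_append]

/-- the faithful twisted states on the Cuntz algebra on Fock space -/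
theorem exists_faithful_twisted {r : ℝ} (hr0 : 0 < r) (hr1 : r < 1) :
    ∃ ω : CuntzFock →L[ℂ] ℂ, IsState ω ∧ (∀ a, ω (star a * a) = 0 → a = 0) ∧
      ∀ y, ω ((⟨cr 0, cr_mem 0⟩ : CuntzFock) * y)
        = (r : ℂ) * ω (y * (⟨cr 0, cr_mem 0⟩ : CuntzFock)) := by
  obtain ⟨ρ, h1, h2, h3⟩ := exists_rho
  have hs : star (⟨cr 0, cr_mem 0⟩ : CuntzFock) * (⟨cr 0, cr_mem 0⟩ : CuntzFock) = 1 :=
    Subtype.ext (star_cr_mul 0)
  obtain ⟨ω, h4, h5, h6⟩ := twisted_state_of hs h1 h2 hr0 hr1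
  refine ⟨ω, h4, ?_, h5⟩
  intro a ha
  have h7 : ∀ w, (a : Fock →L[ℂ] Fock) (fb w) = 0 := by
    intro w
    obtain ⟨n, ν, rfl⟩ := exists_zeros w
    have h8 := h3 _ (h6 a ha n) ν
    have h9 : ((a * (⟨cr 0, cr_mem 0⟩ : CuntzFock) ^ n : CuntzFock) : Fock →L[ℂ] Fock) (fb ν.1)
        = (a : Fock →L[ℂ] Fock) (((cr 0) ^ n) (fb ν.1)) := rfl
    rw [h9, cr_pow_basis] at h8
    exact h8
  apply Subtype.ext
  ext1 v
  have hcl : IsClosed (LinearMap.ker ((a : Fock →L[ℂ] Fock) : Fock →ₗ[ℂ] Fock) : Set Fock) := by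
    have : (LinearMap.ker ((a : Fock →L[ℂ] Fock) : Fock →ₗ[ℂ] Fock) : Set Fock)
        = {v | (a : Fock →L[ℂ] Fock) v = 0} := rfl
    rw [this]
    exact isClosed_eq (a : Fock →L[ℂ] Fock).continuous continuous_const
  have hle : (Submodule.span ℂ (Set.range fb)).topologicalClosure
      ≤ LinearMap.ker ((a : Fock →L[ℂ] Fock) : Fock →ₗ[ℂ] Fock) := by
    apply Submodule.topologicalClosure_minimal _ _ hcl
    apply Submodule.span_le.mpr
    rintro _ ⟨w, rfl⟩
    exact h7 w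
  rw [fb.dense_span] at hle
  exact hle (Submodule.mem_top : v ∈ ⊤)

end Pool.Agent.H89.RFP
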