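import Pool.Agent.H89.RFP.Defs

set_option autoImplicit false

noncomputable section

namespace Pool.Agent.H89.RFP

open TopologicalSpace

variable {B : Type*} [CStarAlgebra B]

lemma isSeparable_adjoin {S : Set B} (hS : S.Countable) :
    IsSeparable ((StarAlgebra.adjoin ℂ S : StarSubalgebra ℂ B) : Set B) := by
  have h1 : ((StarAlgebra.adjoin ℂ S : StarSubalgebra ℂ B) : Set B)
      = (Submodule.span ℂ ((Submonoid.closure (S ∪ star S) : Submonoid B) : Set B) : Set B) := by
    have h2 := StarAlgebra.adjoin_toSubalgebra ℂ S
    have h3 := Algebra.adjoin_eq_span (R := ℂ) (s := S ∪ star S)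
    rw [← h3, ← h2]
    rfl
  rw [h1]
  apply IsSeparable.span
  apply Set.Countable.isSeparable
  have hS2 : (S ∪ star S).Countable := by
    refine hS.union ?_
    have : star S = star '' S := by
      ext x
      simp [Set.mem_star]
    rw [this]
    exact hS.image _
  rw [Submonoid.closure_eq_mrange]
  have : Countable (↥(S ∪ star S)) := hS2.to_subtype
  have h4 : Countable (FreeMonoid (↥(S ∪ star S))) :=
    inferInstanceAs (Countable (List (↥(S ∪ star S))))
  rw [MonoidHom.coe_mrange]
  exact Set.countable_range _

/-- a C*-algebra generated by countably many separable subalgebras is separable -/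
lemma separableSpace_of_generates {D : ℕ → StarSubalgebra ℂ B}
    (hD : ∀ n, IsSeparable (D n : Set B))
    (hgen : closure ((StarAlgebra.adjoin ℂ (⋃ i, (D i : Set B)) : StarSubalgebra ℂ B) : Set B)
      = Set.univ) : SeparableSpace B := by
  choose c hc hDc using hD
  set S : Set B := ⋃ n, c n with hS
  have hSc : S.Countable := Set.countable_iUnion hc
  have h1 : StarAlgebra.adjoin ℂ (⋃ i, (D i : Set B))
      ≤ (StarAlgebra.adjoin ℂ S).topologicalClosure := by
    apply StarAlgebra.adjoin_le
    apply Set.iUnion_subset
    intro n x hx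
    have h2 : x ∈ closure (c n) := hDc n hx
    change x ∈ ((StarAlgebra.adjoin ℂ S).topologicalClosure : Set B)
    rw [StarSubalgebra.topologicalClosure_coe]
    exact closure_mono ((Set.subset_iUnion c n).trans (StarAlgebra.subset_adjoin ℂ S)) h2
  have h3 : closure ((StarAlgebra.adjoin ℂ (⋃ i, (D i : Set B)) : StarSubalgebra ℂ B) : Set B)
      ⊆ closure ((StarAlgebra.adjoin ℂ S : StarSubalgebra ℂ B) : Set B) := by
    apply closure_minimal _ isClosed_closure
    intro x hx
    have := h1 hx
    change x ∈ ((StarAlgebra.adjoin ℂ S).topologicalClosure : Set B) at this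
    rwa [StarSubalgebra.topologicalClosure_coe] at this
  rw [hgen] at h3
  have h4 : IsSeparable (Set.univ : Set B) := (isSeparable_adjoin hSc).closure.mono h3
  exact isSeparable_univ_iff.mp h4

lemma continuous_starHom {C : Type*} [CStarAlgebra C] (j : C →⋆ₐ[ℂ] B) : Continuous j :=
  AddMonoidHomClass.continuous_of_bound j 1
    (fun a => by rw [one_mul]; exact NonUnitalStarAlgHom.norm_apply_le j a)

lemma separableSpace_of_freePower {C : Type*} [CStarAlgebra C] [SeparableSpace C]
    {σ : C →L[ℂ] ℂ} {ψ : B →L[ℂ] ℂ} (h : IsInfiniteFreePower σ ψ) : SeparableSpace B := by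
  obtain ⟨j, _, hj⟩ := h
  apply separableSpace_of_generates (D := fun n => (j n).range) _ hj.generates
  intro n
  have h1 : ((j n).range : Set B) = Set.range (j n) := rfl
  rw [h1]
  exact isSeparable_range (continuous_starHom (j n))

lemma separableSpace_of_cuntz {O : Type*} [CStarAlgebra O] (h : IsCuntzInfinity O) :
    SeparableSpace O := by
  obtain ⟨_, s, _, _, hs⟩ := h
  have h4 : IsSeparable (Set.univ : Set O) := by
    rw [← hs]
    exact (isSeparable_adjoin (Set.countable_range s)).closure
  exact isSeparable_univ_iff.mp h4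

end Pool.Agent.H89.RFP
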