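import Pool.Agent.H89.RFP.Space
import Pool.Agent.H89.RFP.Sep

set_option autoImplicit false

noncomputable section

namespace Pool.Agent.H89.RFP

open scoped ENNReal InnerProductSpace

variable {I : Type*} {X : I → Type*} {o : ∀ i, X i}
variable {H : I → Type*} [∀ i, NormedAddCommGroup (H i)] [∀ i, InnerProductSpace ℂ (H i)]
  [∀ i, CompleteSpace (H i)] {E : Type*} [NormedAddCommGroup E] [InnerProductSpace ℂ E]
  [CompleteSpace E]
variable (b : ∀ i, HilbertBasis (X i) ℂ (H i)) (e : HilbertBasis (W o) ℂ E)

lemma vac_eq (i : I) : e W.nil = V b e i (W'.nil i) (b i (o i)) := by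
  rw [V_basis, act_base]; rfl

lemma inner_vac_lam (i : I) (T : H i →L[ℂ] H i) :
    ⟪e W.nil, lam b e i T (e W.nil)⟫_ℂ = ⟪b i (o i), T (b i (o i))⟫_ℂ := by
  rw [vac_eq b e i, lam_V, LinearIsometry.inner_map_map]

/-- step of the proof of freeness -/
lemma lam_step (i : I) (T : H i →L[ℂ] H i) (hT : ⟪b i (o i), T (b i (o i))⟫_ℂ = 0) {v : E}
    (hv : ∀ w, ¬ NotStart o i w → ⟪e w, v⟫_ℂ = 0) (w : W o) (hw : NotStart o i w) :
    ⟪e w, lam b e i T v⟫_ℂ = 0 := by
  have h1 : e w = V b e i ⟨w, hw⟩ (b i (o i)) := by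
    rw [V_basis, act_base]
  rw [← ContinuousLinearMap.adjoint_inner_left, ← ContinuousLinearMap.star_eq_adjoint,
    ← map_star, h1, lam_V]
  apply inner_map_eq_zero (b i)
  intro x
  by_cases hx : x = o i
  · left
    subst hx
    rw [ContinuousLinearMap.star_eq_adjoint, ContinuousLinearMap.adjoint_inner_right,
      ← inner_conj_symm, hT, map_zero]
  · right
    rw [V_basis]
    exact hv _ (not_notStart_act hx _)

lemma vac_free_aux (l : List (I × (E →L[ℂ] E))) (hl : l.IsChain (fun p q => p.1 ≠ q.1))
    (h : ∀ p ∈ l, ∃ T : H p.1 →L[ℂ] H p.1, p.2 = lam b e p.1 T ∧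
      ⟪b p.1 (o p.1), T (b p.1 (o p.1))⟫_ℂ = 0) :
    ∀ i, (∀ p ∈ l.head?, p.1 = i) → (l ≠ []) →
      ∀ w, NotStart o i w → ⟪e w, (l.map Prod.snd).prod (e W.nil)⟫_ℂ = 0 := by
  induction l with
  | nil => intro i _ hne; exact absurd rfl hne
  | cons p l ih =>
    intro i hi _ w hw
    have hpi : p.1 = i := hi p (by simp)
    subst hpi
    obtain ⟨T, hT1, hT2⟩ := h p (by simp)
    rw [List.map_cons, List.prod_cons, hT1, mul_apply_eq_comp]
    apply lam_step b e p.1 T hT2 _ w hw
    intro w' hw'
    cases l with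
    | nil =>
      simp only [List.map_nil, List.prod_nil, one_apply_eq_self]
      apply e.orthonormal.2
      rintro rfl
      exact hw' (notStart_nil _)
    | cons q l =>
      rw [List.isChain_cons_cons] at hl
      apply ih hl.2 (fun p hp => h p (List.mem_cons_of_mem _ hp)) q.1 (by simp) (by simp)
      intro r hr
      unfold NotStart at hw'
      push Not at hw'
      obtain ⟨r', hr', hr'i⟩ := hw'
      have : r = r' := by
        rw [Option.mem_def] at hr hr'
        rw [hr] at hr'
        exact Option.some.inj hr'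
      subst this
      rw [hr'i]
      exact hl.1

lemma vac_free (l : List (I × (E →L[ℂ] E))) (hne : l ≠ [])
    (hl : l.IsChain (fun p q => p.1 ≠ q.1))
    (h : ∀ p ∈ l, ∃ T : H p.1 →L[ℂ] H p.1, p.2 = lam b e p.1 T ∧
      ⟪b p.1 (o p.1), T (b p.1 (o p.1))⟫_ℂ = 0) :
    ⟪e W.nil, (l.map Prod.snd).prod (e W.nil)⟫_ℂ = 0 := by
  cases l with
  | nil => exact absurd rfl hne
  | cons p l =>
    exact vac_free_aux b e (p :: l) hl h p.1 (by simp) hne _ (notStart_nil _)

/-- cyclicity of the vacuum vector for an algebra of operators which contains the operators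
`lam i (T)`, `T ∈ π i (A i)`. -/
lemma vac_cyclic (S : Submodule ℂ E) (hS : IsClosed (S : Set E)) (h0 : e W.nil ∈ S)
    (P : ∀ i, Set (H i →L[ℂ] H i))
    (hinv : ∀ i, ∀ T ∈ P i, ∀ v ∈ S, lam b e i T v ∈ S)
    (hcyc : ∀ i, Dense ((fun T : H i →L[ℂ] H i => T (b i (o i))) '' P i)) : S = ⊤ := by
  have hw : ∀ (n : ℕ) (w : W o), w.1.length = n → e w ∈ S := by
    intro n
    induction n with
    | zero =>
      intro w hw
      have : w = W.nil := Subtype.ext (List.length_eq_zero_iff.mp hw)
      rw [this]; exact h0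
    | succ n ih =>
      intro w hw
      obtain ⟨l, hl⟩ := w
      cases l with
      | nil => simp at hw
      | cons p l =>
        obtain ⟨i, x⟩ := p
        have hx : x ≠ o i := hl.2 ⟨i, x⟩ (by simp)
        obtain ⟨y, w', hw'⟩ := act_surj i (⟨⟨i, x⟩ :: l, hl⟩ : W o)
        have hy : y ≠ o i := by
          rintro rfl
          rw [act_base] at hw'
          have := w'.2
          rw [hw'] at this
          exact this ⟨i, x⟩ (by simp) rfl
        have hlen : w'.1.1.length = n := by
          rw [act_of_ne hy] at hw'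
          have h1 := congrArg Subtype.val hw'
          simp only [List.cons.injEq] at h1
          rw [h1.2]
          simpa using hw
        have h2 := ih w'.1 hlen
        -- all of the range of `V i w'` lies in `S`
        have h3 : ∀ v : H i, V b e i w' v ∈ S := by
          intro v
          have hcl : IsClosed {v : H i | V b e i w' v ∈ S} :=
            hS.preimage (V b e i w').continuous
          have hsub : (fun T : H i →L[ℂ] H i => T (b i (o i))) '' P i
              ⊆ {v : H i | V b e i w' v ∈ S} := by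
            rintro _ ⟨T, hT, rfl⟩
            have h4 := hinv i T hT _ h2
            have h5 : e w'.1 = V b e i w' (b i (o i)) := by rw [V_basis, act_base]
            rw [h5, lam_V] at h4
            exact h4
          exact closure_minimal hsub hcl (hcyc i v)
        have h6 := h3 (b i y)
        rw [V_basis, hw'] at h6
        exact h6
  rw [eq_top_iff, ← e.dense_span]
  apply Submodule.topologicalClosure_minimal _ _ hS
  apply Submodule.span_le.mpr
  rintro _ ⟨w, rfl⟩
  exact hw _ w rfl

end Pool.Agent.H89.RFP
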