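import Pool.Agent.H89.RFP.Exist

set_option autoImplicit false

noncomputable section

namespace Pool.Agent.H89.RFP

open scoped ComplexOrder InnerProductSpace

/-- the GNS triple of a state -/
theorem exists_gns (A : Type) [CStarAlgebra A] (φ : A →L[ℂ] ℂ) (hφ : IsState φ) :
    ∃ (H : Type) (_ : NormedAddCommGroup H) (_ : InnerProductSpace ℂ H) (_ : CompleteSpace H)
      (π : A →⋆ₐ[ℂ] (H →L[ℂ] H)) (ξ : H), ‖ξ‖ = 1 ∧ (∀ a, φ a = ⟪ξ, π a ξ⟫_ℂ) ∧
      Dense (Set.range fun a => π a ξ) := by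
  letI : PartialOrder A := CStarAlgebra.spectralOrder A
  haveI : StarOrderedRing A := CStarAlgebra.spectralOrderedRing A
  let f : A →ₚ[ℂ] ℂ := PositiveLinearMap.mk₀ (φ : A →ₗ[ℂ] ℂ) (by
    intro a ha
    obtain ⟨b, rfl⟩ := CStarAlgebra.nonneg_iff_eq_star_mul_self.mp ha
    have h1 := hφ.2 b
    rw [Complex.le_def]
    exact ⟨h1.1, h1.2.symm⟩)
  have hf : ∀ a, f a = φ a := fun a => rfl
  let ξ : f.GNS := ((f.toPreGNS 1 : f.PreGNS) : UniformSpace.Completion f.PreGNS)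
  have hπ : ∀ a, f.gnsStarAlgHom a ξ = ((f.toPreGNS a : f.PreGNS) :
      UniformSpace.Completion f.PreGNS) := by
    intro a
    have h1 : f.gnsStarAlgHom a ξ = f.gnsNonUnitalStarAlgHom a ξ := rfl
    rw [h1]
    have h2 := f.gnsNonUnitalStarAlgHom_apply_coe (a := a) (b := f.toPreGNS 1)
    rw [h2]
    simp
  have hin : ∀ a, ⟪ξ, f.gnsStarAlgHom a ξ⟫_ℂ = φ a := by
    intro a
    rw [hπ a, UniformSpace.Completion.inner_coe, PositiveLinearMap.preGNS_inner_def]
    simp [hf]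
  refine ⟨f.GNS, inferInstance, inferInstance, inferInstance, f.gnsStarAlgHom, ξ, ?_, ?_, ?_⟩
  · have h1 := hin 1
    rw [map_one, one_apply_eq_self, inner_self_eq_norm_sq_to_K, hφ.1] at h1
    have h2 : ‖ξ‖ ^ 2 = 1 := by
      have : ((‖ξ‖ ^ 2 : ℝ) : ℂ) = ((1 : ℝ) : ℂ) := by
        push_cast
        simpa using h1
      exact_mod_cast this
    have h3 := norm_nonneg ξ
    nlinarith
  · intro a; rw [hin]
  · have h1 : (Set.range fun a => f.gnsStarAlgHom a ξ)
        = Set.range ((↑) : f.PreGNS → UniformSpace.Completion f.PreGNS) := by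
      ext v
      constructor
      · rintro ⟨a, rfl⟩
        exact ⟨f.toPreGNS a, (hπ a).symm⟩
      · rintro ⟨a, rfl⟩
        refine ⟨f.ofPreGNS a, ?_⟩
        simp only
        rw [hπ]
        simp
    rw [h1]
    exact UniformSpace.Completion.denseRange_coe

/-- **Existence of reduced free products** of families of unital C*-algebras with states. -/
theorem exists_reducedFreeProduct {I : Type} {A : I → Type} [∀ i, CStarAlgebra (A i)]
    (φ : ∀ i, A i →L[ℂ] ℂ) (hφ : ∀ i, IsState (φ i)) :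
    ∃ (B : Type) (_ : CStarAlgebra B) (ψ : B →L[ℂ] ℂ) (j : ∀ i, A i →⋆ₐ[ℂ] B),
      (∀ i a, ψ (j i a) = φ i a) ∧ IsReducedFreeProduct ψ (fun i => (j i).range) := by
  have h := fun i => exists_gns (A i) (φ i) (hφ i)
  choose H i1 i2 i3 π ξ h1 h2 h3 using h
  exact exists_of_reps φ π ξ h1 h2 h3

theorem exists_infiniteFreePower (C : Type) [CStarAlgebra C] (σ : C →L[ℂ] ℂ) (hσ : IsState σ) :
    ∃ (B : Type) (_ : CStarAlgebra B) (ψ : B →L[ℂ] ℂ), IsInfiniteFreePower σ ψ := by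
  obtain ⟨B, hB, ψ, j, h1, h2⟩ := exists_reducedFreeProduct (I := ℕ) (A := fun _ => C)
    (fun _ => σ) (fun _ => hσ)
  exact ⟨B, hB, ψ, j, h1, h2⟩

/-- the two-element family of algebras -/
def two (A₁ A₂ : Type) : Bool → Type := fun t => if t then A₁ else A₂

instance twoCStar (A₁ A₂ : Type) [CStarAlgebra A₁] [CStarAlgebra A₂] :
    ∀ t, CStarAlgebra (two A₁ A₂ t)
  | true => inferInstanceAs (CStarAlgebra A₁)
  | false => inferInstanceAs (CStarAlgebra A₂)

theorem exists_freeProductOfTwo (A₁ A₂ : Type) [CStarAlgebra A₁] [CStarAlgebra A₂]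
    (φ₁ : A₁ →L[ℂ] ℂ) (φ₂ : A₂ →L[ℂ] ℂ) (h₁ : IsState φ₁) (h₂ : IsState φ₂) :
    ∃ (A : Type) (_ : CStarAlgebra A) (φ : A →L[ℂ] ℂ), IsFreeProductOfTwo φ₁ φ₂ φ := by
  let φφ : ∀ t, two A₁ A₂ t →L[ℂ] ℂ := fun t =>
    match t with
    | true => φ₁
    | false => φ₂
  have hφφ : ∀ t, IsState (φφ t) := fun t =>
    match t with
    | true => h₁
    | false => h₂
  obtain ⟨A, hA, φ, j, hj1, hj2⟩ := exists_reducedFreeProduct (I := Bool) (A := two A₁ A₂) φφ hφφ
  refine ⟨A, hA, φ, j true, j false, hj1 true, hj1 false, ?_⟩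
  have h3 : (fun i => (j i).range)
      = (fun t : Bool => if t then (j true).range else (j false).range) := by
    funext t
    cases t <;> rfl
  rw [h3] at hj2
  exact hj2

end Pool.Agent.H89.RFP
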