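import Pool.Agent.H89.RFP.Words

set_option autoImplicit false

noncomputable section

namespace Pool.Agent.H89.RFP

open scoped ComplexOrder

variable {B : Type*} [CStarAlgebra B]

lemma IsState.star_map {ψ : B →L[ℂ] ℂ} (h : IsState ψ) (b : B) :
    ψ (star b) = (starRingEnd ℂ) (ψ b) := by
  obtain ⟨h1, hpos⟩ := h
  -- polarisation with `1 + b` and `1 + i b`
  have e1 := (hpos (1 + b)).2
  have e2 := (hpos (1 + Complex.I • b)).2
  have e3 := (hpos b).2
  have f1 : star (1 + b) * (1 + b) = 1 + b + star b + star b * b := by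
    rw [star_add, star_one]; noncomm_ring
  have f2 : star (1 + Complex.I • b) * (1 + Complex.I • b)
      = 1 + Complex.I • b - Complex.I • star b + star b * b := by
    rw [star_add, star_one, star_smul]
    simp only [Complex.star_def, Complex.conj_I, add_mul, mul_add, one_mul, mul_one, neg_smul,
      neg_mul, smul_mul_assoc, mul_smul_comm, smul_smul, smul_neg, smul_add]
    rw [Complex.I_mul_I]
    simp only [neg_smul, one_smul]
    abel
  rw [f1] at e1
  rw [f2] at e2
  simp only [map_add, map_sub, map_smul, h1, Complex.add_im, Complex.sub_im, Complex.one_im,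
    smul_eq_mul, Complex.mul_im, Complex.I_re, Complex.I_im, e3] at e1 e2
  apply Complex.ext
  · simp only [Complex.conj_re]; linarith
  · simp only [Complex.conj_im]; linarith

/-- If `ψ` is a state of a separable C*-algebra, the numbers `r` for which there is an isometry `x`
with `ψ (x b) = r ψ (b x)` form a countable set. -/
theorem countable_twists [TopologicalSpace.SeparableSpace B] {ψ : B →L[ℂ] ℂ} (h : IsState ψ) :
    {r : ℝ | ∃ x : B, star x * x = 1 ∧ ∀ b, ψ (x * b) = (r : ℂ) * ψ (b * x)}.Countable := by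
  classical
  set T := {r : ℝ | ∃ x : B, star x * x = 1 ∧ ∀ b, ψ (x * b) = (r : ℂ) * ψ (b * x)} with hT
  have hch : ∀ r : ℝ, ∃ x : B, r ∈ T → (star x * x = 1 ∧ ∀ b, ψ (x * b) = (r : ℂ) * ψ (b * x)) := by
    intro r
    by_cases hr : r ∈ T
    · obtain ⟨x, hx⟩ := hr
      exact ⟨x, fun _ => hx⟩
    · exact ⟨0, fun h => absurd h hr⟩
  choose x hx using hch
  have horth : ∀ r ∈ T, ∀ s ∈ T, r ≠ s → ψ (star (x r) * x s) = 0 := by
    intro r hr s hs hrs
    have e1 := (hx s hs).2 (star (x r))
    have e2 := (hx r hr).2 (star (x s))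
    have e3 : ψ (x s * star (x r)) = (r : ℂ) * ψ (star (x r) * x s) := by
      have g1 : x s * star (x r) = star (x r * star (x s)) := by rw [star_mul, star_star]
      have g2 : star (x r) * x s = star (star (x s) * x r) := by rw [star_mul, star_star]
      rw [g1, g2, h.star_map, h.star_map, e2, map_mul, Complex.conj_ofReal]
    have e4 : ((s : ℂ) - r) * ψ (star (x r) * x s) = 0 := by
      rw [sub_mul, ← e1, ← e3, sub_self]
    rcases mul_eq_zero.mp e4 with h5 | h5
    · exfalso
      apply hrs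
      have : (s : ℂ) = r := sub_eq_zero.mp h5
      exact (Complex.ofReal_injective this).symm
    · exact h5
  have hdist : ∀ r ∈ T, ∀ s ∈ T, r ≠ s → 2 ≤ ‖ψ‖ * (‖x r - x s‖ * ‖x r - x s‖) := by
    intro r hr s hs hrs
    have e1 : star (x r - x s) * (x r - x s) = 1 - star (x r) * x s - star (x s) * x r + 1 := by
      have g1 := (hx r hr).1
      have g2 := (hx s hs).1
      calc star (x r - x s) * (x r - x s) = star (x r) * x r - star (x r) * x s - star (x s) * x r
            + star (x s) * x s := by rw [star_sub]; noncomm_ring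
        _ = _ := by rw [g1, g2]
    have e2 : ψ (star (x r - x s) * (x r - x s)) = 2 := by
      rw [e1, map_add, map_sub, map_sub, h.1, horth r hr s hs hrs, horth s hs r hr hrs.symm]
      norm_num
    have e3 := ψ.le_opNorm (star (x r - x s) * (x r - x s))
    rw [e2] at e3
    rw [CStarRing.norm_star_mul_self] at e3
    simpa using e3
  set ε := 1 / (‖ψ‖ + 1) with hε
  have hψ0 := norm_nonneg ψ
  have hε0 : 0 < ε := by positivity
  have hε1 : ε ≤ 1 := by
    rw [hε, div_le_one (by positivity)]; linarith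
  have hdisj : T.PairwiseDisjoint (fun r => Metric.ball (x r) (ε / 2)) := by
    intro r hr s hs hrs
    apply Metric.ball_disjoint_ball
    rw [add_halves]
    by_contra hcon
    push Not at hcon
    rw [dist_eq_norm] at hcon
    have h1 := hdist r hr s hs hrs
    have h2 : ‖x r - x s‖ * ‖x r - x s‖ ≤ ε * 1 := by
      have h0 := norm_nonneg (x r - x s)
      apply mul_le_mul hcon.le (hcon.le.trans hε1) h0 hε0.le
    have h3 : ‖ψ‖ * (‖x r - x s‖ * ‖x r - x s‖) ≤ ‖ψ‖ * ε := by
      rw [mul_one] at h2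
      gcongr
    have h4 : ‖ψ‖ * ε ≤ 1 := by
      rw [hε, mul_one_div, div_le_one (by positivity)]
      linarith
    linarith
  exact hdisj.countable_of_isOpen (fun r _ => Metric.isOpen_ball)
    (fun r _ => ⟨x r, Metric.mem_ball_self (by positivity)⟩)

/-- A nonzero unital C*-algebra has a state. -/
theorem exists_state (O : Type*) [CStarAlgebra O] [Nontrivial O] : ∃ τ : O →L[ℂ] ℂ, IsState τ := by
  letI : PartialOrder O := CStarAlgebra.spectralOrder O
  haveI : StarOrderedRing O := CStarAlgebra.spectralOrderedRing O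
  obtain ⟨τ, hτ, hτ1⟩ := exists_dual_vector (𝕜 := ℂ) (1 : O) (by simp)
  have hn1 : ‖(1 : O)‖ = 1 := CStarRing.norm_one
  rw [hn1] at hτ1
  have h1 : τ 1 = 1 := by simpa using hτ1
  refine ⟨τ, h1, ?_⟩
  have hle : ∀ a : O, ‖τ a‖ ≤ ‖a‖ := fun a => by
    have := τ.le_opNorm a
    rwa [hτ, one_mul] at this
  have him : ∀ a : O, IsSelfAdjoint a → (τ a).im = 0 := by
    intro a ha
    have key : ∀ t : ℝ, (τ a).re ^ 2 + ((τ a).im + t) ^ 2 ≤ ‖a‖ ^ 2 + t ^ 2 := by
      intro t
      have e1 := hle (a + algebraMap ℂ O (t * Complex.I))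
      have e2 : τ (a + algebraMap ℂ O (t * Complex.I)) = τ a + t * Complex.I := by
        rw [map_add, Algebra.algebraMap_eq_smul_one, map_smul, h1]; simp
      have e3 : ‖τ a + t * Complex.I‖ ^ 2 = (τ a).re ^ 2 + ((τ a).im + t) ^ 2 := by
        rw [← Complex.normSq_eq_norm_sq, Complex.normSq_apply]
        simp
        ring
      have e4 : star (a + algebraMap ℂ O (t * Complex.I)) * (a + algebraMap ℂ O (t * Complex.I))
          = a * a + algebraMap ℂ O ((t : ℂ) ^ 2) := by
        rw [star_add, ha.star_eq, ← algebraMap_star_comm]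
        have : star ((t : ℂ) * Complex.I) = - (t * Complex.I) := by
          simp
        rw [this, map_neg]
        have hc : a * algebraMap ℂ O (t * Complex.I) = algebraMap ℂ O (t * Complex.I) * a :=
          (Algebra.commutes _ _).symm
        have hd : algebraMap ℂ O (t * Complex.I) * algebraMap ℂ O (t * Complex.I)
            = - algebraMap ℂ O ((t : ℂ) ^ 2) := by
          rw [← map_mul, ← map_neg]
          congr 1
          rw [mul_mul_mul_comm, Complex.I_mul_I]; ring
        rw [add_mul, mul_add, mul_add, hc, neg_mul, neg_mul, hd]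
        abel
      have e5 : ‖a + algebraMap ℂ O (t * Complex.I)‖ ^ 2 ≤ ‖a‖ ^ 2 + t ^ 2 := by
        rw [sq, ← CStarRing.norm_star_mul_self, e4]
        refine (norm_add_le _ _).trans ?_
        have g1 : ‖a * a‖ ≤ ‖a‖ ^ 2 := by rw [sq]; exact norm_mul_le _ _
        have g2 : ‖algebraMap ℂ O ((t : ℂ) ^ 2)‖ = t ^ 2 := by
          rw [norm_algebraMap']
          simp
        linarith
      rw [e2] at e1
      rw [← e3]
      have e6 : ‖τ a + t * Complex.I‖ ^ 2 ≤ ‖a + algebraMap ℂ O (t * Complex.I)‖ ^ 2 := by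
        gcongr
      exact e6.trans e5
    by_contra hne
    set β := (τ a).im with hβ
    have h5 := key ((‖a‖ ^ 2 + 1) / (2 * β))
    have h6 : 2 * β * ((‖a‖ ^ 2 + 1) / (2 * β)) = ‖a‖ ^ 2 + 1 := by
      field_simp
    nlinarith [sq_nonneg (τ a).re, sq_nonneg β]
  intro a
  have hsa : IsSelfAdjoint (star a * a) := IsSelfAdjoint.star_mul_self a
  refine ⟨?_, him _ hsa⟩
  by_cases ha : a = 0
  · subst ha; simp
  have hna : 0 < ‖star a * a‖ := by
    rw [CStarRing.norm_star_mul_self]
    have : 0 < ‖a‖ := norm_pos_iff.mpr ha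
    positivity
  set N := ‖star a * a‖ with hN
  have hnn : (0 : O) ≤ star a * a := star_mul_self_nonneg a
  set hh : O := ((N⁻¹ : ℝ)) • (star a * a) with hhh
  have hh0 : 0 ≤ hh := smul_nonneg (by positivity) hnn
  have hhn : ‖hh‖ ≤ 1 := by
    rw [hhh, norm_smul, Real.norm_of_nonneg (by positivity), ← hN]
    rw [inv_mul_cancel₀ hna.ne']
  have hh1 : hh ≤ 1 := (CStarAlgebra.norm_le_one_iff_of_nonneg hh hh0).mp hhn
  have hk0 : 0 ≤ 1 - hh := sub_nonneg.mpr hh1
  have hk1 : ‖1 - hh‖ ≤ 1 := (CStarAlgebra.norm_le_one_iff_of_nonneg (1 - hh) hk0).mpr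
    (sub_le_self _ hh0)
  have e1 := (hle (1 - hh)).trans hk1
  rw [map_sub, h1] at e1
  have e2 : (1 - τ hh).re ≤ 1 := (Complex.re_le_norm _).trans e1
  have e3 : 0 ≤ (τ hh).re := by
    simp only [Complex.sub_re, Complex.one_re] at e2
    linarith
  have e4 : τ hh = (N⁻¹ : ℝ) * τ (star a * a) := by
    rw [hhh]
    have : ((N⁻¹ : ℝ)) • (star a * a) = ((N⁻¹ : ℝ) : ℂ) • (star a * a) := by
      rw [Complex.coe_smul]
    rw [this, map_smul]
    simp
  rw [e4, Complex.re_ofReal_mul] at e3
  exact nonneg_of_mul_nonneg_right e3 (by positivity)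

end Pool.Agent.H89.RFP
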