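import Pool.Agent.H89.RFP.Words
import Pool.Agent.H89.RFP.Sep
import Pool.Agent.H89.RFP.States

set_option autoImplicit false

noncomputable section

namespace Pool.Agent.H89.RFP

section norms

variable {B B' : Type*} [CStarAlgebra B] [CStarAlgebra B']

/-- comparison of norms through a state with faithful GNS representation -/
lemma norm_le_of_states {ψ : B →L[ℂ] ℂ} {ψ' : B' →L[ℂ] ℂ} (hψ : IsState ψ) (hψ' : IsState ψ')
    (hfaith : ∀ b : B, (∀ c : B, ψ (star (b * c) * (b * c)) = 0) → b = 0)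
    (S : Set (B × B')) (hdense : Dense (Prod.fst '' S)) (p : B × B')
    (hS : ∀ q ∈ S, ψ (star q.1 * (star p.1 * p.1) * q.1)
        = ψ' (star q.2 * (star p.2 * p.2) * q.2))
    (hS1 : ∀ q ∈ S, ψ (star q.1 * q.1) = ψ' (star q.2 * q.2)) : ‖p.1‖ ≤ ‖p.2‖ := by
  letI : PartialOrder B := CStarAlgebra.spectralOrder B
  haveI : StarOrderedRing B := CStarAlgebra.spectralOrderedRing B
  letI : PartialOrder B' := CStarAlgebra.spectralOrder B'
  haveI : StarOrderedRing B' := CStarAlgebra.spectralOrderedRing B'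
  set t : ℝ := ‖p.2‖ ^ 2 with ht
  have ht0 : 0 ≤ t := by positivity
  set h : B := algebraMap ℝ B t - star p.1 * p.1 with hh
  set h' : B' := algebraMap ℝ B' t - star p.2 * p.2 with hh'
  have hh'0 : 0 ≤ h' := by
    rw [hh', sub_nonneg, ← CStarAlgebra.norm_le_iff_le_algebraMap _ ht0 (star_mul_self_nonneg _),
      CStarRing.norm_star_mul_self, ht, sq]
  have hsa : IsSelfAdjoint h := by
    rw [hh]
    exact (IsSelfAdjoint.algebraMap B (IsSelfAdjoint.all t)).sub (IsSelfAdjoint.star_mul_self _)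
  -- positivity on `S`
  have hpos1 : ∀ q ∈ S, 0 ≤ (ψ (star q.1 * h * q.1)).re := by
    intro q hq
    have e1 : ψ (star q.1 * h * q.1) = ψ' (star q.2 * h' * q.2) := by
      rw [hh, hh']
      have g1 : star q.1 * (algebraMap ℝ B t - star p.1 * p.1) * q.1
          = (t : ℂ) • (star q.1 * q.1) - star q.1 * (star p.1 * p.1) * q.1 := by
        rw [mul_sub, sub_mul, Algebra.algebraMap_eq_smul_one, mul_smul_comm, smul_mul_assoc,
          mul_one, Complex.coe_smul]
      have g2 : star q.2 * (algebraMap ℝ B' t - star p.2 * p.2) * q.2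
          = (t : ℂ) • (star q.2 * q.2) - star q.2 * (star p.2 * p.2) * q.2 := by
        rw [mul_sub, sub_mul, Algebra.algebraMap_eq_smul_one, mul_smul_comm, smul_mul_assoc,
          mul_one, Complex.coe_smul]
      rw [g1, g2, map_sub, map_sub, map_smul, map_smul, hS q hq, hS1 q hq]
    rw [e1]
    obtain ⟨k, hk⟩ := CStarAlgebra.nonneg_iff_eq_star_mul_self.mp hh'0
    have e2 : star q.2 * h' * q.2 = star (k * q.2) * (k * q.2) := by
      rw [hk, star_mul]; simp only [mul_assoc]
    rw [e2]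
    exact (hψ'.2 _).1
  -- positivity everywhere
  have hpos : ∀ c : B, 0 ≤ (ψ (star c * h * c)).re := by
    intro c
    have hcl : IsClosed {c : B | 0 ≤ (ψ (star c * h * c)).re} := by
      apply isClosed_le continuous_const
      fun_prop
    have hsub : Prod.fst '' S ⊆ {c : B | 0 ≤ (ψ (star c * h * c)).re} := by
      rintro _ ⟨q, hq, rfl⟩
      exact hpos1 q hq
    exact closure_minimal hsub hcl (hdense c)
  -- the negative part vanishes
  have hneg0 : (0 : B) ≤ h⁻ := CFC.negPart_nonneg h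
  have hnsa : star (h⁻) = h⁻ := (IsSelfAdjoint.of_nonneg hneg0).star_eq
  have hhn : h * h⁻ = -(h⁻ * h⁻) := by
    have h1 := CFC.posPart_sub_negPart h hsa
    have h2 := CFC.posPart_mul_negPart h
    calc h * h⁻ = (h⁺ - h⁻) * h⁻ := by rw [h1]
      _ = -(h⁻ * h⁻) := by rw [sub_mul, h2, zero_sub]
  obtain ⟨k, hk⟩ := CStarAlgebra.nonneg_iff_eq_star_mul_self.mp hneg0
  have hzero : k * h⁻ = 0 := by
    apply hfaith
    intro d
    have e1 := hpos (h⁻ * d)
    have e2 : star (h⁻ * d) * h * (h⁻ * d) = -(star (k * h⁻ * d) * (k * h⁻ * d)) := by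
      calc star (h⁻ * d) * h * (h⁻ * d) = star d * h⁻ * (h * h⁻) * d := by
            rw [star_mul, hnsa]; simp only [mul_assoc]
        _ = -(star d * (h⁻ * (h⁻ * h⁻)) * d) := by
            rw [hhn]; simp only [mul_neg, neg_mul, mul_assoc]
        _ = -(star d * (h⁻ * ((star k * k) * h⁻)) * d) := by rw [← hk]
        _ = _ := by
            rw [star_mul, star_mul, hnsa]; simp only [mul_assoc]
    rw [e2, map_neg, Complex.neg_re] at e1
    have e3 := hψ.2 (k * h⁻ * d)
    apply Complex.ext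
    · simp only [Complex.zero_re]; linarith [e3.1]
    · exact e3.2
  have hcube : h⁻ * (h⁻ * h⁻) = 0 := by
    calc h⁻ * (h⁻ * h⁻) = h⁻ * (star k * k * h⁻) := by rw [← hk]
      _ = 0 := by rw [mul_assoc, hzero, mul_zero, mul_zero]
  have hn0 : h⁻ = 0 := by
    have h1 : star (h⁻ * h⁻) * (h⁻ * h⁻) = 0 := by
      rw [star_mul, hnsa, mul_assoc, hcube, mul_zero]
    have h2 : h⁻ * h⁻ = 0 := (CStarRing.star_mul_self_eq_zero_iff _).mp h1
    have h3 : star (h⁻) * h⁻ = 0 := by rw [hnsa, h2]
    exact (CStarRing.star_mul_self_eq_zero_iff _).mp h3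
  have hh0 : 0 ≤ h := (CFC.negPart_eq_zero_iff h hsa).mp hn0
  have h5 : ‖star p.1 * p.1‖ ≤ t := by
    rw [CStarAlgebra.norm_le_iff_le_algebraMap _ ht0 (star_mul_self_nonneg _)]
    exact sub_nonneg.mp hh0
  rw [CStarRing.norm_star_mul_self, ht, sq] at h5
  exact abs_le_of_sq_le_sq' (by nlinarith [norm_nonneg p.1, norm_nonneg p.2]) (norm_nonneg _) |>.2

end norms

variable {I : Type*} {A : I → Type*} [∀ i, CStarAlgebra (A i)]
  {B B' : Type*} [CStarAlgebra B] [CStarAlgebra B']

/-- the projections of a product of a word -/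
lemma wprod_fst (l : List (I × (B × B'))) :
    (wprod l).1 = wprod (l.map (fun p => (p.1, p.2.1))) := by
  induction l with
  | nil => simp
  | cons p l ih => simp [ih]

lemma wprod_snd (l : List (I × (B × B'))) :
    (wprod l).2 = wprod (l.map (fun p => (p.1, p.2.2))) := by
  induction l with
  | nil => simp
  | cons p l ih => simp [ih]

/-- **Uniqueness of the reduced free product.** -/
theorem unique_reducedFreeProduct {ψ : B →L[ℂ] ℂ} {ψ' : B' →L[ℂ] ℂ}
    (j : ∀ i, A i →⋆ₐ[ℂ] B) (j' : ∀ i, A i →⋆ₐ[ℂ] B') (hjj : ∀ i a, ψ (j i a) = ψ' (j' i a))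
    (h : IsReducedFreeProduct ψ (fun i => (j i).range))
    (h' : IsReducedFreeProduct ψ' (fun i => (j' i).range)) :
    ∃ α : B ≃⋆ₐ[ℂ] B', ∀ b, ψ' (α b) = ψ b := by
  let J : ∀ i, A i →⋆ₐ[ℂ] (B × B') := fun i => (j i).prod (j' i)
  let DD : I → StarSubalgebra ℂ (B × B') := fun i => (J i).range
  let Ψ : (B × B') →L[ℂ] ℂ := ψ.comp (ContinuousLinearMap.fst ℂ B B')
  have hΨ1 : Ψ 1 = 1 := h.state.1
  let S₀ : StarSubalgebra ℂ (B × B') := StarAlgebra.adjoin ℂ (⋃ i, (DD i : Set (B × B')))
  -- the two functionals agree on `S₀`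
  have hagree₀ : ∀ p ∈ altSpan Ψ DD, ψ p.1 = ψ' p.2 := by
    intro p hp
    unfold altSpan at hp
    induction hp using Submodule.span_induction with
    | zero => simp
    | add p q _ _ hp hq => rw [Prod.fst_add, Prod.snd_add, map_add, map_add, hp, hq]
    | smul c p _ hp => rw [Prod.smul_fst, Prod.smul_snd, map_smul, map_smul, hp]
    | mem p hp =>
      obtain ⟨l, hl, rfl⟩ := hp
      by_cases hne : l = []
      · subst hne
        rw [wprod_nil, Prod.fst_one, Prod.snd_one, h.state.1, h'.state.1]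
      · rw [wprod_fst, wprod_snd]
        have e1 : ψ (wprod (l.map (fun p => (p.1, p.2.1)))) = 0 := by
          apply h.free _ (by simpa using hne)
          · rw [List.isChain_map]; exact hl.1
          · intro p hp
            obtain ⟨q, hq, rfl⟩ := List.mem_map.mp hp
            obtain ⟨hq1, hq2⟩ := hl.2 q hq
            obtain ⟨a, ha⟩ : ∃ a, J q.1 a = q.2 := hq1
            refine ⟨⟨a, ?_⟩, hq2⟩
            simp only
            rw [← ha]; rfl
        have e2 : ψ' (wprod (l.map (fun p => (p.1, p.2.2)))) = 0 := by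
          apply h'.free _ (by simpa using hne)
          · rw [List.isChain_map]; exact hl.1
          · intro p hp
            obtain ⟨q, hq, rfl⟩ := List.mem_map.mp hp
            obtain ⟨hq1, hq2⟩ := hl.2 q hq
            obtain ⟨a, ha⟩ : ∃ a, J q.1 a = q.2 := hq1
            refine ⟨⟨a, ?_⟩, ?_⟩
            · simp only
              rw [← ha]; rfl
            · simp only
              have hq3 : ψ q.2.1 = 0 := hq2
              rw [← ha] at hq3 ⊢
              have e3 : ψ (j q.1 a) = 0 := hq3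
              have e4 : ψ' (j' q.1 a) = 0 := by rw [← hjj]; exact e3
              exact e4
        rw [e1, e2]
  have hagree : ∀ p ∈ S₀, ψ p.1 = ψ' p.2 := fun p hp => hagree₀ p (adjoin_le_altSpan hΨ1 hp)
  -- the projections of `S₀` are dense
  have hfst : ∀ x ∈ StarAlgebra.adjoin ℂ (⋃ i, ((j i).range : Set B)), ∃ p ∈ S₀, p.1 = x := by
    intro x hx
    induction hx using StarAlgebra.adjoin_induction with
    | mem x hx =>
      obtain ⟨i, a, ha⟩ := Set.mem_iUnion.mp hx
      exact ⟨J i a, StarAlgebra.subset_adjoin ℂ _ (Set.mem_iUnion.mpr ⟨i, a, rfl⟩), ha⟩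
    | algebraMap r => exact ⟨algebraMap ℂ _ r, S₀.algebraMap_mem r, rfl⟩
    | add x y _ _ hx hy =>
      obtain ⟨p, hp, rfl⟩ := hx
      obtain ⟨q, hq, rfl⟩ := hy
      exact ⟨p + q, add_mem hp hq, rfl⟩
    | mul x y _ _ hx hy =>
      obtain ⟨p, hp, rfl⟩ := hx
      obtain ⟨q, hq, rfl⟩ := hy
      exact ⟨p * q, mul_mem hp hq, rfl⟩
    | star x _ hx =>
      obtain ⟨p, hp, rfl⟩ := hx
      exact ⟨star p, star_mem hp, rfl⟩
  have hsnd : ∀ x ∈ StarAlgebra.adjoin ℂ (⋃ i, ((j' i).range : Set B')), ∃ p ∈ S₀, p.2 = x := by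
    intro x hx
    induction hx using StarAlgebra.adjoin_induction with
    | mem x hx =>
      obtain ⟨i, a, ha⟩ := Set.mem_iUnion.mp hx
      exact ⟨J i a, StarAlgebra.subset_adjoin ℂ _ (Set.mem_iUnion.mpr ⟨i, a, rfl⟩), ha⟩
    | algebraMap r => exact ⟨algebraMap ℂ _ r, S₀.algebraMap_mem r, rfl⟩
    | add x y _ _ hx hy =>
      obtain ⟨p, hp, rfl⟩ := hx
      obtain ⟨q, hq, rfl⟩ := hy
      exact ⟨p + q, add_mem hp hq, rfl⟩
    | mul x y _ _ hx hy =>
      obtain ⟨p, hp, rfl⟩ := hx
      obtain ⟨q, hq, rfl⟩ := hy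
      exact ⟨p * q, mul_mem hp hq, rfl⟩
    | star x _ hx =>
      obtain ⟨p, hp, rfl⟩ := hx
      exact ⟨star p, star_mem hp, rfl⟩
  have hd1 : Dense (Prod.fst '' (S₀ : Set (B × B'))) := by
    intro x
    have hx : x ∈ closure ((StarAlgebra.adjoin ℂ (⋃ i, ((j i).range : Set B)) :
        StarSubalgebra ℂ B) : Set B) := by rw [h.generates]; trivial
    refine closure_mono ?_ hx
    intro y hy
    obtain ⟨p, hp, rfl⟩ := hfst y hy
    exact ⟨p, hp, rfl⟩
  have hd2 : Dense (Prod.snd '' (S₀ : Set (B × B'))) := by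
    intro x
    have hx : x ∈ closure ((StarAlgebra.adjoin ℂ (⋃ i, ((j' i).range : Set B')) :
        StarSubalgebra ℂ B') : Set B') := by rw [h'.generates]; trivial
    refine closure_mono ?_ hx
    intro y hy
    obtain ⟨p, hp, rfl⟩ := hsnd y hy
    exact ⟨p, hp, rfl⟩
  -- equality of norms on `S₀`
  have hnorm₀ : ∀ p ∈ S₀, ‖p.1‖ = ‖p.2‖ := by
    intro p hp
    apply le_antisymm
    · apply norm_le_of_states h.state h'.state h.faithful (S₀ : Set (B × B')) hd1 p
      · intro q hq
        exact hagree (star q * (star p * p) * q)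
          (mul_mem (mul_mem (star_mem hq) (mul_mem (star_mem hp) hp)) hq)
      · intro q hq
        exact hagree (star q * q) (mul_mem (star_mem hq) hq)
    · have hd2' : Dense (Prod.fst '' (Prod.swap '' (S₀ : Set (B × B')))) := by
        rw [Set.image_image]
        exact hd2
      apply norm_le_of_states h'.state h.state h'.faithful (Prod.swap '' (S₀ : Set (B × B')))
        hd2' p.swap
      · rintro _ ⟨q, hq, rfl⟩
        exact (hagree (star q * (star p * p) * q)
          (mul_mem (mul_mem (star_mem hq) (mul_mem (star_mem hp) hp)) hq)).symm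
      · rintro _ ⟨q, hq, rfl⟩
        exact (hagree (star q * q) (mul_mem (star_mem hq) hq)).symm
  -- pass to the closure
  let S := S₀.topologicalClosure
  have hScl : IsClosed (S : Set (B × B')) := S₀.isClosed_topologicalClosure
  have hSmem : ∀ p ∈ S, p ∈ closure (S₀ : Set (B × B')) := by
    intro p hp
    have : p ∈ (S : Set (B × B')) := hp
    rwa [StarSubalgebra.topologicalClosure_coe] at this
  have hnorm : ∀ p ∈ S, ‖p.1‖ = ‖p.2‖ := by
    intro p hp
    have hcl : IsClosed {p : B × B' | ‖p.1‖ = ‖p.2‖} := by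
      apply isClosed_eq <;> fun_prop
    exact closure_minimal (fun q hq => hnorm₀ q hq) hcl (hSmem p hp)
  have hstate : ∀ p ∈ S, ψ p.1 = ψ' p.2 := by
    intro p hp
    have hcl : IsClosed {p : B × B' | ψ p.1 = ψ' p.2} := by
      apply isClosed_eq <;> fun_prop
    exact closure_minimal (fun q hq => hagree q hq) hcl (hSmem p hp)
  let f : S →⋆ₐ[ℂ] B := (StarAlgHom.fst ℂ B B').comp S.subtype
  let g : S →⋆ₐ[ℂ] B' := (StarAlgHom.snd ℂ B B').comp S.subtype
  have hf : ∀ p : S, f p = (p : B × B').1 := fun p => rfl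
  have hg : ∀ p : S, g p = (p : B × B').2 := fun p => rfl
  have hfi : Isometry f := by
    apply AddMonoidHomClass.isometry_of_norm
    intro p
    rw [hf]
    have h1 : ‖p‖ = ‖(p : B × B')‖ := rfl
    rw [h1, Prod.norm_def, hnorm _ p.2, max_self]
  have hgi : Isometry g := by
    apply AddMonoidHomClass.isometry_of_norm
    intro p
    rw [hg]
    have h1 : ‖p‖ = ‖(p : B × B')‖ := rfl
    rw [h1, Prod.norm_def, hnorm _ p.2, max_self]
  haveI : CompleteSpace S := hScl.completeSpace_coe
  have hfs : Function.Surjective f := by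
    have h1 : IsClosed (Set.range f) := hfi.isClosedEmbedding.isClosed_range
    have h2 : Dense (Set.range f) := hd1.mono (by
      rintro _ ⟨p, hp, rfl⟩
      exact ⟨⟨p, S₀.le_topologicalClosure hp⟩, rfl⟩)
    intro x
    have := h2 x
    rwa [h1.closure_eq] at this
  have hgs : Function.Surjective g := by
    have h1 : IsClosed (Set.range g) := hgi.isClosedEmbedding.isClosed_range
    have h2 : Dense (Set.range g) := hd2.mono (by
      rintro _ ⟨p, hp, rfl⟩
      exact ⟨⟨p, S₀.le_topologicalClosure hp⟩, rfl⟩)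
    intro x
    have := h2 x
    rwa [h1.closure_eq] at this
  let F := StarAlgEquiv.ofBijective f ⟨hfi.injective, hfs⟩
  let G := StarAlgEquiv.ofBijective g ⟨hgi.injective, hgs⟩
  refine ⟨F.symm.trans G, fun b => ?_⟩
  obtain ⟨p, hp⟩ : ∃ p, F p = b := hfs b
  have h1 : (F.symm.trans G) (F p) = G p := by
    rw [StarAlgEquiv.trans_apply, StarAlgEquiv.symm_apply_apply]
  rw [← hp, h1]
  exact (hstate _ p.2).symm

end Pool.Agent.H89.RFP
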