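import Pool.Agent.H89.RFP.FockState
import Pool.Agent.H89.RFP.Unique

set_option autoImplicit false

noncomputable section

namespace Pool.Agent.H89.RFP

open TopologicalSpace

/-- `(O * C^∞, ω * σ^∞)` and `(C^∞, σ^∞)` (the reduced free product of `(O, ω)` with the infinite
reduced free power of `(C, σ)`, and that free power itself) exist, and there is no
*-isomorphism from the first onto the second which carries the state of the second to that of the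
first. -/
def NoStatePreservingIso {O C : Type} [CStarAlgebra O] [CStarAlgebra C] (ω : O →L[ℂ] ℂ)
    (σ : C →L[ℂ] ℂ) : Prop :=
  (∃ (B A : Type) (_ : CStarAlgebra B) (_ : CStarAlgebra A) (ψ : B →L[ℂ] ℂ) (φ : A →L[ℂ] ℂ),
    IsInfiniteFreePower σ ψ ∧ IsFreeProductOfTwo ω ψ φ) ∧
  ∀ (B A : Type) [CStarAlgebra B] [CStarAlgebra A] (ψ : B →L[ℂ] ℂ) (φ : A →L[ℂ] ℂ),
    IsInfiniteFreePower σ ψ → IsFreeProductOfTwo ω ψ φ →
      ¬ ∃ θ : A ≃⋆ₐ[ℂ] B, ∀ a, ψ (θ a) = φ a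

/-- the twist relation passes to the free product -/
lemma twist_of_freeProduct {O B A : Type} [CStarAlgebra O] [CStarAlgebra B] [CStarAlgebra A]
    {ω : O →L[ℂ] ℂ} {ψ : B →L[ℂ] ℂ} {φ : A →L[ℂ] ℂ} (h : IsFreeProductOfTwo ω ψ φ) {s : O}
    (hs : star s * s = 1) {r : ℝ} (hr : r ≠ 1) (hω : ∀ y, ω (s * y) = (r : ℂ) * ω (y * s)) :
    ∃ x : A, star x * x = 1 ∧ ∀ b, φ (x * b) = (r : ℂ) * φ (b * x) := by
  obtain ⟨k₁, k₂, h1, _, h3⟩ := h
  refine ⟨k₁ s, ?_, ?_⟩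
  · rw [← map_star, ← map_mul, hs, map_one]
  · apply twist_extends h3 (i₀ := true)
    · exact ⟨s, rfl⟩
    · intro h
      exact hr (by exact_mod_cast h)
    · rintro _ ⟨c, rfl⟩
      have e1 : φ (k₁ s * k₁ c) = ω (s * c) := by rw [← map_mul, h1]
      have e2 : φ (k₁ c * k₁ s) = ω (c * s) := by rw [← map_mul, h1]
      change φ (k₁ s * k₁ c) = (r : ℂ) * φ (k₁ c * k₁ s)
      rw [e1, e2, hω]

/-- For all but countably many `r` the twisted states give non-isomorphic pairs. -/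
theorem countable_exceptions {C : Type} [CStarAlgebra C] [SeparableSpace C] {σ : C →L[ℂ] ℂ}
    (hσ : IsState σ) : ∃ T : Set ℝ, T.Countable ∧
      ∀ (O : Type) [CStarAlgebra O] (ω : O →L[ℂ] ℂ) (s : O) (r : ℝ), IsState ω →
        star s * s = 1 → r ≠ 1 → (∀ y, ω (s * y) = (r : ℂ) * ω (y * s)) → r ∉ T →
          NoStatePreservingIso ω σ := by
  obtain ⟨B₀, hB₀, ψ₀, h₀⟩ := exists_infiniteFreePower C σ hσ
  haveI : SeparableSpace B₀ := separableSpace_of_freePower h₀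
  have hψ₀ : IsState ψ₀ := by
    obtain ⟨j, _, hj⟩ := h₀
    exact hj.state
  refine ⟨_, countable_twists hψ₀, ?_⟩
  intro O _ ω s r hω hs hr hωs hrT
  refine ⟨?_, ?_⟩
  · obtain ⟨A, hA, φ, h⟩ := exists_freeProductOfTwo O B₀ ω ψ₀ hω hψ₀
    exact ⟨B₀, A, hB₀, hA, ψ₀, φ, h₀, h⟩
  · intro B A _ _ ψ φ hB hA
    rintro ⟨θ, hθ⟩
    obtain ⟨x, hx1, hx2⟩ := twist_of_freeProduct hA hs hr hωs
    -- the comparison isomorphism `B → B₀`
    obtain ⟨α, hα⟩ : ∃ α : B ≃⋆ₐ[ℂ] B₀, ∀ b, ψ₀ (α b) = ψ b := by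
      obtain ⟨j, hj1, hj2⟩ := hB
      obtain ⟨j', hj1', hj2'⟩ := h₀
      exact unique_reducedFreeProduct (A := fun _ => C) j j'
        (fun i a => by rw [hj1, hj1']) hj2 hj2'
    apply hrT
    refine ⟨α (θ x), ?_, ?_⟩
    · rw [← map_star, ← map_star, ← map_mul, ← map_mul, hx1, map_one, map_one]
    · intro b
      have e1 : α (θ (θ.symm (α.symm b))) = b := by simp
      have e4 : α (θ (x * θ.symm (α.symm b))) = α (θ x) * b := by
        rw [map_mul θ, map_mul α, e1]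
      have e5 : α (θ (θ.symm (α.symm b) * x)) = b * α (θ x) := by
        rw [map_mul θ, map_mul α, e1]
      have e2 : ψ₀ (α (θ x) * b) = φ (x * θ.symm (α.symm b)) := by
        rw [← hθ, ← hα, e4]
      have e3 : ψ₀ (b * α (θ x)) = φ (θ.symm (α.symm b) * x) := by
        rw [← hθ, ← hα, e5]
      rw [e2, e3, hx2]

lemma exists_not_mem {T : Set ℝ} (hT : T.Countable) : ∃ r : ℝ, 0 < r ∧ r < 1 ∧ r ∉ T := by
  by_contra hcon
  push Not at hcon
  have h1 : Set.Ioo (0 : ℝ) 1 ⊆ T := fun r hr => hcon r hr.1 hr.2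
  have h2 := (hT.mono h1).measure_zero MeasureTheory.volume
  rw [Real.volume_Ioo] at h2
  simp at h2

/-- every state of every separable unital C*-algebra -/
theorem main_general (O C : Type) [CStarAlgebra O] [CStarAlgebra C] [SeparableSpace C]
    (hO : IsCuntzInfinity O) (σ : C →L[ℂ] ℂ) (hσ : IsState σ) :
    ∃ ω : O →L[ℂ] ℂ, IsState ω ∧ NoStatePreservingIso ω σ := by
  obtain ⟨T, hT, h⟩ := countable_exceptions hσ
  obtain ⟨r, hr0, hr1, hrT⟩ := exists_not_mem hT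
  obtain ⟨hnt, s, hs1, hs2, _⟩ := hO
  obtain ⟨ω, hω1, hω2⟩ := exists_twisted_state (hs1 0) (hs1 1) (hs2 1 0 (by norm_num)) hr0 hr1
  exact ⟨ω, hω1, h O ω (s 0) r hω1 (hs1 0) hr1.ne hω2 hrT⟩

theorem main_faithful (C : Type) [CStarAlgebra C] [SeparableSpace C]
    (σ : C →L[ℂ] ℂ) (hσ : IsState σ) :
    ∃ ω : CuntzFock →L[ℂ] ℂ, IsState ω ∧ (∀ a, ω (star a * a) = 0 → a = 0) ∧
      NoStatePreservingIso ω σ := by
  obtain ⟨T, hT, h⟩ := countable_exceptions hσ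
  obtain ⟨r, hr0, hr1, hrT⟩ := exists_not_mem hT
  obtain ⟨ω, hω1, hω2, hω3⟩ := exists_faithful_twisted hr0 hr1
  exact ⟨ω, hω1, hω2, h CuntzFock ω ⟨cr 0, cr_mem 0⟩ r hω1 (Subtype.ext (star_cr_mul 0)) hr1.ne
    hω3 hrT⟩

end Pool.Agent.H89.RFP
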