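import Pool.Agent.H89.RFP.Amp

set_option autoImplicit false

noncomputable section

namespace Pool.Agent.H89.RFP

open scoped ENNReal InnerProductSpace

section basis

variable {X : Type*} {K E : Type*} [NormedAddCommGroup K] [InnerProductSpace ℂ K]
  [NormedAddCommGroup E] [InnerProductSpace ℂ E]

/-- if two vectors have, for each basis vector, at least one vanishing coordinate, they are
orthogonal -/
lemma inner_eq_zero_of_coord (b : HilbertBasis X ℂ K) (u v : K)
    (h : ∀ x, ⟪b x, u⟫_ℂ = 0 ∨ ⟪b x, v⟫_ℂ = 0) : ⟪u, v⟫_ℂ = 0 := by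
  have h1 := b.hasSum_inner_mul_inner u v
  have h2 : (fun x => ⟪u, b x⟫_ℂ * ⟪b x, v⟫_ℂ) = fun _ => 0 := by
    funext x
    rcases h x with h3 | h3
    · rw [← inner_conj_symm, h3]; simp
    · rw [h3, mul_zero]
  rw [h2] at h1
  exact h1.unique hasSum_zero

lemma inner_map_eq_zero [CompleteSpace K] [CompleteSpace E] (b : HilbertBasis X ℂ K)
    (T : K →ₗᵢ[ℂ] E) (u : K) (k : E)
    (h : ∀ x, ⟪b x, u⟫_ℂ = 0 ∨ ⟪T (b x), k⟫_ℂ = 0) : ⟪T u, k⟫_ℂ = 0 := by
  have h0 : ⟪T u, k⟫_ℂ = ⟪T.toContinuousLinearMap u, k⟫_ℂ := rfl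
  rw [h0, ← ContinuousLinearMap.adjoint_inner_right]
  apply inner_eq_zero_of_coord b
  intro x
  rw [ContinuousLinearMap.adjoint_inner_right]
  exact h x

lemma eq_zero_of_coord (b : HilbertBasis X ℂ K) (u : K)
    (h : ∀ x, ⟪b x, u⟫_ℂ = 0) : u = 0 := by
  have := inner_eq_zero_of_coord b u u (fun x => Or.inl (h x))
  exact inner_self_eq_zero.mp this

end basis

variable {I : Type*} {X : I → Type*}

/-- reduced words -/
def IsRed (o : ∀ i, X i) (l : List (Σ i, X i)) : Prop :=
  l.IsChain (fun p q => p.1 ≠ q.1) ∧ ∀ p ∈ l, p.2 ≠ o p.1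

/-- the type of reduced words -/
def W (o : ∀ i, X i) : Type _ := {l : List (Σ i, X i) // IsRed o l}

/-- the word `w` does not start with a letter from `X i` -/
def NotStart (o : ∀ i, X i) (i : I) (w : W o) : Prop := ∀ p ∈ w.1.head?, p.1 ≠ i

/-- reduced words not starting with a letter from `X i` -/
def W' (o : ∀ i, X i) (i : I) : Type _ := {w : W o // NotStart o i w}

variable {o : ∀ i, X i}

/-- the empty word -/
def W.nil : W o := ⟨[], List.isChain_nil, by simp⟩

lemma notStart_nil (i : I) : NotStart o i W.nil := by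
  intro p hp; simp [W.nil] at hp

/-- the empty word, in `W' o i` -/
def W'.nil (i : I) : W' o i := ⟨W.nil, notStart_nil i⟩

lemma isRed_cons {i : I} {x : X i} (w : W' o i) (hx : x ≠ o i) :
    IsRed o (⟨i, x⟩ :: w.1.1) := by
  obtain ⟨⟨l, hl⟩, hw⟩ := w
  refine ⟨?_, ?_⟩
  · cases l with
    | nil => exact List.isChain_singleton _
    | cons q l =>
      rw [List.isChain_cons_cons]
      refine ⟨?_, hl.1⟩
      have := hw q (by simp)
      exact fun h => this h.symm
  · intro p hp
    rcases List.mem_cons.mp hp with rfl | hp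
    · exact hx
    · exact hl.2 p hp

open Classical in
/-- the action of the letters: prepend the letter `x`, or do nothing if `x` is the base point -/
def act (i : I) (x : X i) (w : W' o i) : W o :=
  if hx : x = o i then w.1 else ⟨⟨i, x⟩ :: w.1.1, isRed_cons w hx⟩

lemma act_base (i : I) (w : W' o i) : act i (o i) w = w.1 := by
  simp [act]

lemma act_of_ne {i : I} {x : X i} (hx : x ≠ o i) (w : W' o i) :
    act i x w = ⟨⟨i, x⟩ :: w.1.1, isRed_cons w hx⟩ := by
  simp [act, hx]

lemma not_notStart_act {i : I} {x : X i} (hx : x ≠ o i) (w : W' o i) :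
    ¬ NotStart o i (act i x w) := by
  rw [act_of_ne hx]
  intro h
  exact h ⟨i, x⟩ (by simp) rfl

lemma act_inj {i : I} {x x' : X i} {w w' : W' o i} (h : act i x w = act i x' w') :
    x = x' ∧ w = w' := by
  by_cases hx : x = o i
  · by_cases hx' : x' = o i
    · subst hx hx'
      rw [act_base, act_base] at h
      exact ⟨rfl, Subtype.ext h⟩
    · exfalso
      subst hx
      rw [act_base] at h
      have := not_notStart_act hx' w'
      rw [← h] at this
      exact this w.2
  · by_cases hx' : x' = o i
    · exfalso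
      subst hx'
      rw [act_base] at h
      have := not_notStart_act hx w
      rw [h] at this
      exact this w'.2
    · rw [act_of_ne hx, act_of_ne hx'] at h
      have h1 := congrArg Subtype.val h
      simp only [List.cons.injEq, Sigma.mk.injEq, heq_eq_eq, true_and] at h1
      exact ⟨h1.1, Subtype.ext (Subtype.ext h1.2)⟩

lemma act_surj (i : I) (w : W o) : ∃ (x : X i) (w' : W' o i), act i x w' = w := by
  by_cases hw : NotStart o i w
  · exact ⟨o i, ⟨w, hw⟩, act_base _ _⟩
  · obtain ⟨l, hl⟩ := w
    unfold NotStart at hw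
    push Not at hw
    obtain ⟨p, hp, hpi⟩ := hw
    cases l with
    | nil => simp at hp
    | cons q l =>
      simp only [List.head?_cons, Option.mem_def, Option.some.injEq] at hp
      subst hp
      obtain ⟨j, x⟩ := q
      simp only at hpi
      subst hpi
      have hl' : IsRed o l := ⟨hl.1.tail, fun p hp => hl.2 p (List.mem_cons_of_mem _ hp)⟩
      have hns : NotStart o j ⟨l, hl'⟩ := by
        intro p hp
        have h1 := hl.1
        cases l with
        | nil => simp at hp
        | cons q l =>
          simp only [List.head?_cons, Option.mem_def, Option.some.injEq] at hp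
          subst hp
          rw [List.isChain_cons_cons] at h1
          exact fun h => h1.1 h.symm
      refine ⟨x, ⟨⟨l, hl'⟩, hns⟩, ?_⟩
      rw [act_of_ne (hl.2 ⟨j, x⟩ (by simp))]

variable {H : I → Type*} [∀ i, NormedAddCommGroup (H i)] [∀ i, InnerProductSpace ℂ (H i)]
  [∀ i, CompleteSpace (H i)] {E : Type*} [NormedAddCommGroup E] [InnerProductSpace ℂ E]
  [CompleteSpace E]

lemma orthonormal_act (e : HilbertBasis (W o) ℂ E) (i : I) (w : W' o i) :
    Orthonormal ℂ (fun x : X i => e (act i x w)) :=
  e.orthonormal.comp _ (fun _ _ h => (act_inj h).1)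

/-- the isometry `H i → E` onto the closed span of the `act i x w`, `x ∈ X i` -/
def V (b : ∀ i, HilbertBasis (X i) ℂ (H i)) (e : HilbertBasis (W o) ℂ E) (i : I) (w : W' o i) :
    H i →ₗᵢ[ℂ] E :=
  (orthonormal_act e i w).orthogonalFamily.linearIsometry.comp (b i).repr.toLinearIsometry

variable (b : ∀ i, HilbertBasis (X i) ℂ (H i)) (e : HilbertBasis (W o) ℂ E)

lemma V_basis (i : I) (w : W' o i) (x : X i) : V b e i w (b i x) = e (act i x w) := by
  classical
  have h0 : V b e i w (b i x)
      = (orthonormal_act e i w).orthogonalFamily.linearIsometry ((b i).repr (b i x)) := rfl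
  rw [h0, HilbertBasis.repr_self, OrthogonalFamily.linearIsometry_apply_single]
  simp

lemma V_orthogonalFamily (i : I) :
    OrthogonalFamily ℂ (fun _ : W' o i => H i) (V b e i) := by
  intro w w' hww u v
  change ⟪V b e i w u, V b e i w' v⟫_ℂ = 0
  apply inner_map_eq_zero (b i)
  intro x
  right
  rw [V_basis, ← inner_conj_symm]
  have h1 : ⟪V b e i w' v, e (act i x w)⟫_ℂ = 0 := by
    apply inner_map_eq_zero (b i)
    intro y
    right
    rw [V_basis]
    exact e.orthonormal.2 (fun h => hww (act_inj h).2.symm)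
  rw [h1, map_zero]

lemma V_hilbertSum (i : I) : IsHilbertSum ℂ (fun _ : W' o i => H i) (V b e i) := by
  apply IsHilbertSum.mk (V_orthogonalFamily b e i)
  rw [← e.dense_span]
  apply Submodule.topologicalClosure_mono
  apply Submodule.span_le.mpr
  rintro _ ⟨w, rfl⟩
  obtain ⟨x, w', rfl⟩ := act_surj i w
  rw [← V_basis b e i w' x]
  exact (le_iSup (fun w : W' o i => LinearMap.range (V b e i w).toLinearMap) w')
    (LinearMap.mem_range_self (V b e i w').toLinearMap (b i x))

/-- the canonical representation of `B(H i)` on the free product Hilbert space -/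
def lam (i : I) : (H i →L[ℂ] H i) →⋆ₐ[ℂ] (E →L[ℂ] E) :=
  ((V_hilbertSum b e i).linearIsometryEquiv.symm.conjStarAlgEquiv : _ →⋆ₐ[ℂ] (E →L[ℂ] E)).comp
    (amp (K := H i) (W' o i))

lemma lam_V (i : I) (T : H i →L[ℂ] H i) (w : W' o i) (v : H i) :
    lam b e i T (V b e i w v) = V b e i w (T v) := by
  classical
  have h1 : V b e i w v = (V_hilbertSum b e i).linearIsometryEquiv.symm
      (lp.single (E := fun _ : W' o i => H i) 2 w v) := by
    rw [IsHilbertSum.linearIsometryEquiv_symm_apply_single]
  have h2 : V b e i w (T v) = (V_hilbertSum b e i).linearIsometryEquiv.symm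
      (lp.single (E := fun _ : W' o i => H i) 2 w (T v)) := by
    rw [IsHilbertSum.linearIsometryEquiv_symm_apply_single]
  rw [h2, ← amp_single]
  have h3 : lam b e i T (V b e i w v) = (V_hilbertSum b e i).linearIsometryEquiv.symm
      (amp (K := H i) (W' o i) T ((V_hilbertSum b e i).linearIsometryEquiv (V b e i w v))) := rfl
  rw [h3]
  congr 2
  rw [h1, LinearIsometryEquiv.apply_symm_apply]

end Pool.Agent.H89.RFP
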