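import Pool.Agent.H89.RFP.Defs

set_option autoImplicit false

noncomputable section

namespace Pool.Agent.H89.RFP

variable {I : Type*} {B : Type*} [CStarAlgebra B]

/-- alternating centred words -/
def Alt (ψ : B →L[ℂ] ℂ) (D : I → StarSubalgebra ℂ B) (l : List (I × B)) : Prop :=
  l.IsChain (fun p q => p.1 ≠ q.1) ∧ ∀ p ∈ l, p.2 ∈ D p.1 ∧ ψ p.2 = 0

/-- the product of a word -/
def wprod (l : List (I × B)) : B := (l.map Prod.snd).prod

@[simp] lemma wprod_nil : wprod ([] : List (I × B)) = 1 := by simp [wprod]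

@[simp] lemma wprod_cons (p : I × B) (l : List (I × B)) : wprod (p :: l) = p.2 * wprod l := by
  simp [wprod]

@[simp] lemma wprod_append (l l' : List (I × B)) : wprod (l ++ l') = wprod l * wprod l' := by
  simp [wprod]

variable {ψ : B →L[ℂ] ℂ} {D : I → StarSubalgebra ℂ B}

lemma Alt.nil : Alt ψ D [] := ⟨List.isChain_nil, by simp⟩

lemma Alt.tail {p : I × B} {l : List (I × B)} (h : Alt ψ D (p :: l)) : Alt ψ D l :=
  ⟨h.1.tail, fun q hq => h.2 q (List.mem_cons_of_mem _ hq)⟩

lemma Alt.head {p : I × B} {l : List (I × B)} (h : Alt ψ D (p :: l)) : p.2 ∈ D p.1 ∧ ψ p.2 = 0 :=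
  h.2 p List.mem_cons_self

lemma Alt.replace_head {i : I} {b c : B} {l : List (I × B)} (h : Alt ψ D ((i, b) :: l))
    (hc : c ∈ D i) (hc0 : ψ c = 0) : Alt ψ D ((i, c) :: l) := by
  refine ⟨?_, ?_⟩
  · have h1 := h.1
    cases l with
    | nil => exact List.isChain_singleton _
    | cons q l =>
      rw [List.isChain_cons_cons] at h1 ⊢
      exact h1
  · intro p hp
    rcases List.mem_cons.mp hp with rfl | hp
    · exact ⟨hc, hc0⟩
    · exact h.2 p (List.mem_cons_of_mem _ hp)

lemma Alt.cons {i j : I} {b c : B} {l : List (I × B)} (h : Alt ψ D ((j, b) :: l)) (hij : i ≠ j)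
    (hc : c ∈ D i) (hc0 : ψ c = 0) : Alt ψ D ((i, c) :: (j, b) :: l) := by
  refine ⟨?_, ?_⟩
  · rw [List.isChain_cons_cons]
    exact ⟨hij, h.1⟩
  · intro p hp
    rcases List.mem_cons.mp hp with rfl | hp
    · exact ⟨hc, hc0⟩
    · exact h.2 p hp

lemma Alt.init {p : I × B} {l : List (I × B)} (h : Alt ψ D (l ++ [p])) : Alt ψ D l :=
  ⟨h.1.left_of_append, fun q hq => h.2 q (by simp [hq])⟩

lemma Alt.last {p : I × B} {l : List (I × B)} (h : Alt ψ D (l ++ [p])) :
    p.2 ∈ D p.1 ∧ ψ p.2 = 0 :=
  h.2 p (by simp)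

lemma Alt.replace_last {i : I} {b c : B} {l : List (I × B)} (h : Alt ψ D (l ++ [(i, b)]))
    (hc : c ∈ D i) (hc0 : ψ c = 0) : Alt ψ D (l ++ [(i, c)]) := by
  refine ⟨?_, ?_⟩
  · have h1 := h.1
    rw [List.isChain_append] at h1 ⊢
    refine ⟨h1.1, List.isChain_singleton _, ?_⟩
    intro x hx y hy
    have := h1.2.2 x hx (i, b) (by simp)
    simp only [List.head?_cons, Option.mem_def, Option.some.injEq] at hy
    subst hy
    exact this
  · intro p hp
    rcases List.mem_append.mp hp with hp | hp
    · exact h.2 p (by simp [hp])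
    · simp only [List.mem_singleton] at hp
      subst hp
      exact ⟨hc, hc0⟩

lemma Alt.concat {i j : I} {b c : B} {l : List (I × B)} (h : Alt ψ D (l ++ [(j, b)])) (hij : j ≠ i)
    (hc : c ∈ D i) (hc0 : ψ c = 0) : Alt ψ D (l ++ [(j, b)] ++ [(i, c)]) := by
  refine ⟨?_, ?_⟩
  · rw [List.isChain_append]
    refine ⟨h.1, List.isChain_singleton _, ?_⟩
    intro x hx y hy
    simp only [List.head?_cons, Option.mem_def, Option.some.injEq] at hy
    simp only [List.getLast?_append, List.getLast?_singleton, Option.some_or, Option.mem_def,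
      Option.some.injEq] at hx
    subst hy hx
    exact hij
  · intro p hp
    rcases List.mem_append.mp hp with hp | hp
    · exact h.2 p hp
    · simp only [List.mem_singleton] at hp
      subst hp
      exact ⟨hc, hc0⟩

/-- the span of the alternating centred words (the empty word included) -/
def altSpan (ψ : B →L[ℂ] ℂ) (D : I → StarSubalgebra ℂ B) : Submodule ℂ B :=
  Submodule.span ℂ {b | ∃ l, Alt ψ D l ∧ b = wprod l}

lemma sub_center_mem {i : I} {b : B} (hb : b ∈ D i) : b - algebraMap ℂ B (ψ b) ∈ D i :=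
  sub_mem hb ((D i).algebraMap_mem _)

lemma psi_sub_center (h1 : ψ 1 = 1) (b : B) : ψ (b - algebraMap ℂ B (ψ b)) = 0 := by
  rw [map_sub, Algebra.algebraMap_eq_smul_one, map_smul, h1]
  simp

lemma mul_mem_altSpan (h1 : ψ 1 = 1) {i : I} {b : B} (hb : b ∈ D i) {v : B}
    (hv : v ∈ altSpan ψ D) : b * v ∈ altSpan ψ D := by
  unfold altSpan at hv
  induction hv using Submodule.span_induction with
  | zero => simp
  | add x y _ _ hx hy => rw [mul_add]; exact add_mem hx hy
  | smul c x _ hx => rw [mul_smul_comm]; exact Submodule.smul_mem _ _ hx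
  | mem x hx =>
    obtain ⟨l, hl, rfl⟩ := hx
    have key : ∀ l : List (I × B), Alt ψ D l → wprod l ∈ altSpan ψ D :=
      fun l hl => Submodule.subset_span ⟨l, hl, rfl⟩
    cases l with
    | nil =>
      have h2 : b * wprod ([] : List (I × B)) = wprod [(i, b - algebraMap ℂ B (ψ b))]
          + (ψ b) • wprod ([] : List (I × B)) := by
        simp [Algebra.algebraMap_eq_smul_one]
      rw [h2]
      refine add_mem (key _ ⟨List.isChain_singleton _, ?_⟩) (Submodule.smul_mem _ _ (key _ hl))
      intro p hp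
      simp only [List.mem_singleton] at hp
      subst hp
      exact ⟨sub_center_mem hb, psi_sub_center h1 b⟩
    | cons p l =>
      obtain ⟨j, c⟩ := p
      by_cases hij : i = j
      · subst hij
        have hbc : b * c ∈ D i := mul_mem hb hl.head.1
        have h2 : b * wprod ((i, c) :: l) = wprod ((i, b * c - algebraMap ℂ B (ψ (b * c))) :: l)
            + (ψ (b * c)) • wprod l := by
          simp [Algebra.algebraMap_eq_smul_one, sub_mul, mul_assoc]
        rw [h2]
        exact add_mem (key _ (hl.replace_head (sub_center_mem hbc) (psi_sub_center h1 _)))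
          (Submodule.smul_mem _ _ (key _ hl.tail))
      · have h2 : b * wprod ((j, c) :: l) = wprod ((i, b - algebraMap ℂ B (ψ b)) :: (j, c) :: l)
            + (ψ b) • wprod ((j, c) :: l) := by
          simp [Algebra.algebraMap_eq_smul_one, sub_mul]
        rw [h2]
        exact add_mem (key _ (hl.cons hij (sub_center_mem hb) (psi_sub_center h1 _)))
          (Submodule.smul_mem _ _ (key _ hl))

lemma one_mem_altSpan : (1 : B) ∈ altSpan ψ D :=
  Submodule.subset_span ⟨[], Alt.nil, by simp⟩

lemma adjoin_le_altSpan (h1 : ψ 1 = 1) {x : B}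
    (hx : x ∈ StarAlgebra.adjoin ℂ (⋃ i, (D i : Set B))) : x ∈ altSpan ψ D := by
  have key : (∀ v ∈ altSpan ψ D, x * v ∈ altSpan ψ D) ∧
      (∀ v ∈ altSpan ψ D, star x * v ∈ altSpan ψ D) := by
    induction hx using StarAlgebra.adjoin_induction with
    | mem x hx =>
      obtain ⟨i, hi⟩ := Set.mem_iUnion.mp hx
      exact ⟨fun v hv => mul_mem_altSpan h1 hi hv, fun v hv => mul_mem_altSpan h1 (star_mem hi) hv⟩
    | algebraMap r =>
      refine ⟨fun v hv => ?_, fun v hv => ?_⟩
      · rw [← Algebra.smul_def]; exact Submodule.smul_mem _ _ hv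
      · rw [← algebraMap_star_comm, ← Algebra.smul_def]; exact Submodule.smul_mem _ _ hv
    | add x y _ _ hx hy =>
      refine ⟨fun v hv => ?_, fun v hv => ?_⟩
      · rw [add_mul]; exact add_mem (hx.1 v hv) (hy.1 v hv)
      · rw [star_add, add_mul]; exact add_mem (hx.2 v hv) (hy.2 v hv)
    | mul x y _ _ hx hy =>
      refine ⟨fun v hv => ?_, fun v hv => ?_⟩
      · rw [mul_assoc]; exact hx.1 _ (hy.1 v hv)
      · rw [star_mul, mul_assoc]; exact hy.2 _ (hx.2 v hv)
    | star x _ hx =>
      exact ⟨hx.2, fun v hv => by rw [star_star]; exact hx.1 v hv⟩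
  simpa using key.1 1 one_mem_altSpan

lemma dense_altSpan (h : IsReducedFreeProduct ψ D) : Dense (altSpan ψ D : Set B) := by
  intro x
  have hx : x ∈ closure ((StarAlgebra.adjoin ℂ (⋃ i, (D i : Set B)) : StarSubalgebra ℂ B) :
      Set B) := by
    rw [h.generates]; trivial
  exact closure_mono (fun y hy => adjoin_le_altSpan h.state.1 hy) hx

/-- If `x ∈ D i₀` satisfies `ψ (x b) = r ψ (b x)` for `b ∈ D i₀` with `r ≠ 1`, the same holds for
all `b ∈ B`. -/
theorem twist_extends (h : IsReducedFreeProduct ψ D) {i₀ : I} {x : B} (hx : x ∈ D i₀) {r : ℂ}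
    (hr : r ≠ 1) (hxb : ∀ b ∈ D i₀, ψ (x * b) = r * ψ (b * x)) (b : B) :
    ψ (x * b) = r * ψ (b * x) := by
  have hψ1 := h.state.1
  have hx0 : ψ x = 0 := by
    have h2 := hxb 1 (one_mem _)
    rw [mul_one, one_mul] at h2
    have h3 : (1 - r) * ψ x = 0 := by linear_combination h2
    rcases mul_eq_zero.mp h3 with h4 | h4
    · exact absurd (by linear_combination -h4) hr
    · exact h4
  have hfree : ∀ l : List (I × B), l ≠ [] → Alt ψ D l → ψ (wprod l) = 0 :=
    fun l hl ha => h.free l hl ha.1 ha.2
  -- words of length at least two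
  have hL : ∀ l : List (I × B), l ≠ [] → Alt ψ D l → (∀ c, l ≠ [(i₀, c)]) →
      ψ (x * wprod l) = 0 := by
    intro l hne hl hnot
    cases l with
    | nil => exact absurd rfl hne
    | cons p l =>
      obtain ⟨j, c⟩ := p
      by_cases hij : i₀ = j
      · subst hij
        have hbc : x * c ∈ D i₀ := mul_mem hx hl.head.1
        have h2 : x * wprod ((i₀, c) :: l) = wprod ((i₀, x * c - algebraMap ℂ B (ψ (x * c))) :: l)
            + (ψ (x * c)) • wprod l := by
          simp [Algebra.algebraMap_eq_smul_one, sub_mul, mul_assoc]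
        have hlne : l ≠ [] := by
          rintro rfl
          exact hnot c rfl
        rw [h2, map_add, map_smul,
          hfree _ (by simp) (hl.replace_head (sub_center_mem hbc) (psi_sub_center hψ1 _)),
          hfree _ hlne hl.tail]
        simp
      · have := hfree _ (by simp) (hl.cons hij hx hx0)
        simpa using this
  have hR : ∀ l : List (I × B), l ≠ [] → Alt ψ D l → (∀ c, l ≠ [(i₀, c)]) →
      ψ (wprod l * x) = 0 := by
    intro l hne hl hnot
    obtain ⟨l', p, rfl⟩ : ∃ l' p, l = l' ++ [p] := by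
      rcases List.eq_nil_or_concat' l with h | ⟨l', p, h⟩
      · exact absurd h hne
      · exact ⟨l', p, h⟩
    obtain ⟨j, c⟩ := p
    by_cases hij : j = i₀
    · subst hij
      have hbc : c * x ∈ D j := mul_mem hl.last.1 hx
      have h2 : wprod (l' ++ [(j, c)]) * x
          = wprod (l' ++ [(j, c * x - algebraMap ℂ B (ψ (c * x)))])
          + (ψ (c * x)) • wprod l' := by
        simp [Algebra.algebraMap_eq_smul_one, mul_sub, mul_assoc]
      have hlne : l' ≠ [] := by
        rintro rfl
        exact hnot c rfl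
      rw [h2, map_add, map_smul,
        hfree _ (by simp) (hl.replace_last (sub_center_mem hbc) (psi_sub_center hψ1 _)),
        hfree _ hlne hl.init]
      simp
    · have := hfree _ (by simp) (hl.concat hij hx hx0)
      simpa [mul_assoc] using this
  have hspan : ∀ v ∈ altSpan ψ D, ψ (x * v) = r * ψ (v * x) := by
    intro v hv
    unfold altSpan at hv
    induction hv using Submodule.span_induction with
    | zero => simp
    | add v w _ _ hv hw => rw [mul_add, add_mul, map_add, map_add, hv, hw]; ring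
    | smul c v _ hv =>
      rw [mul_smul_comm, smul_mul_assoc, map_smul, map_smul, hv]
      simp only [smul_eq_mul]; ring
    | mem v hv =>
      obtain ⟨l, hl, rfl⟩ := hv
      by_cases hne : l = []
      · subst hne
        simp only [wprod_nil, mul_one, one_mul, hx0, mul_zero]
      by_cases hex : ∃ c, l = [(i₀, c)]
      · obtain ⟨c, rfl⟩ := hex
        have := hxb c hl.head.1
        simpa using this
      · push Not at hex
        rw [hL l hne hl hex, hR l hne hl hex]
        simp
  have hcl : IsClosed {b : B | ψ (x * b) = r * ψ (b * x)} := by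
    apply isClosed_eq <;> fun_prop
  have hdense := dense_altSpan h
  have : closure (altSpan ψ D : Set B) ⊆ {b : B | ψ (x * b) = r * ψ (b * x)} :=
    closure_minimal (fun v hv => hspan v hv) hcl
  exact this (hdense b)

end Pool.Agent.H89.RFP
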